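import Pool.Agent.Helper64.LMA.Lat
import Pool.Agent.Helper60.LMA.Lim
import Pool.Agent.Helper33.LMA.X5
import Pool.Agent.Helper27.LX.Low
import Pool.Agent.Helper22.LP.P1

/-!
# Project LMA: the asymptotic formulas at the worst centre for almost every lattice, from the block bounds
-/

open MeasureTheory Real Set Filter Topology
open scoped ENNReal NNReal

set_option autoImplicit false

namespace Pool.Agent.Helper64.LMA

open Pool.Agent.Helper22.AE
open Pool.Agent.Helper22.AC (cntc)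
open Pool.Agent.Helper22.OV (shf)
open Pool.Agent.Helper22.WC (LimS)
open Pool.Agent.Helper92.LA (dl fdet_dl lcnt)
open Pool.Agent.Helper22.LP (Fr fdet Hf Hf_isSupp)
open Pool.Agent.Helper75.LMA (BlkT)

/-- the block bounds of all orders `q ≤ s < P` -/
def BlkAll (H' : ℝ → ℝ) (q P : ℝ) : Prop :=
  ∀ s : ℝ, q ≤ s → s < P → ∃ e0 : ℝ, 0 < e0 ∧ ∀ e : ℝ, 0 < e → e ≤ e0 → BlkT H' s e

/-- one oval -/
theorem as_of {H' : ℝ → ℝ} (hH : IsSupp H') {q P : ℝ} (hq : 2 ≤ q) (hqP : q < P) (hB : BlkAll H' q P) {p : ℝ} (hp : p ∈ Ioo 0 P) : As H' p := by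
  obtain ⟨s, hs⟩ : ∃ s : ℝ, s = max q ((p + P) / 2) := ⟨_, rfl⟩
  have hqs : q ≤ s := by
    rw [hs]
    exact le_max_left _ _
  have hps : p < s := by
    rw [hs]
    refine lt_of_lt_of_le ?_ (le_max_right _ _)
    linarith [hp.2]
  have hsP : s < P := by
    rw [hs]
    refine max_lt hqP ?_
    linarith [hp.2]
  obtain ⟨e0, he0, he⟩ := hB s hqs hsP
  have h1 := he (min e0 (1 / 8)) (lt_min he0 (by norm_num)) (min_le_left _ _)
  have h2 : 0 < min e0 (1 / 8) := lt_min he0 (by norm_num)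
  have h3 : min e0 (1 / 8) ≤ 1 / 8 := min_le_right _ _
  have hs2 : 2 ≤ s := hq.trans hqs
  exact Pool.Agent.Helper33.LMA.asymp hH.smooth hH.per hH.rho_pos
    (fun φ hφ hc => Pool.Agent.Helper60.LMA.limS_of_blk hH hs2 h2 h3 h1 hφ hc)
    hp.1 hps (by linarith) (Pool.Agent.Helper60.LMA.growth hH hs2 h2 h3 h1)
    (Pool.Agent.Helper27.LX.lb_of_tail hH.smooth hH.per hH.rho_pos (Pool.Agent.Helper60.LMA.htail_ge hH hs2 h2 h3 h1 1))

/-- almost every lattice -/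
theorem lma_of {H : ℝ → ℝ} (h2 : ContDiff ℝ 2 H) (hp : Function.Periodic H (2 * π)) (hr : ∀ t, 0 < H t + deriv (deriv H) t) {q P : ℝ} (hq : 2 ≤ q)
    (hqP : q < P) (h : ∀ v : ℝ × ℝ, IsSupp (shf H v) → ∀ᵐ f : Fr, 0 < fdet f → BlkAll (Hf (shf H v) f) q P) :
    ∀ᵐ ab : Fr, fdet ab ≠ 0 ∧ ∀ p ∈ Ioo (0 : ℝ) P, AsL H p ab := by
  refine asL_main h2 hp hr fun v hv => ?_
  filter_upwards [h v hv] with f hf hdet p hpP
  exact as_of (Hf_isSupp hv hdet.ne') hq hqP (hf hdet) hpP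

end Pool.Agent.Helper64.LMA
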