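import Pool.Agent.Helper64.LM.Meas

/-!
# Project LMA: transfer of every property of `R ↦ sup_c F |E_c(R)|` from frames to lattices, for suprema in any type (`ℝ`, `ℝ≥0∞`)
-/

open MeasureTheory Real Set Filter Topology
open scoped ENNReal NNReal

set_option autoImplicit false

namespace Pool.Agent.Helper64.LMA

open Pool.Agent.Helper22.AE
open Pool.Agent.Helper22.AC (cntc)
open Pool.Agent.Helper22.OV (shf)
open Pool.Agent.Helper92.LA (dl fdet_dl lcnt lcnt_swap ae_dual ae_swap ae_det)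
open Pool.Agent.Helper22.LP (Fr fdet Hf)

variable {T : Type*} [SupSet T]

theorem tr_dl {H : ℝ → ℝ} (hp : Function.Periodic H (2 * π)) {ab : Fr} (h : fdet ab ≠ 0) (F : ℝ → T) (R : ℝ) :
    ⨆ c : ℝ × ℝ, F |lcnt ab H c R - area H * R ^ 2 / abs (fdet ab)| =
      ⨆ c : ℝ × ℝ, F |cntc (Hf H (dl ab)) c R - area (Hf H (dl ab)) * R ^ 2| := by
  have hdl : fdet (dl ab) ≠ 0 := by
    rw [fdet_dl h]
    positivity
  rw [← (Pool.Agent.Helper75.LM.coord_surj hdl).iSup_comp (g := fun c : ℝ × ℝ => F |cntc (Hf H (dl ab)) c R - area (Hf H (dl ab)) * R ^ 2|)]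
  exact iSup_congr fun c => by rw [Pool.Agent.Helper33.LM.err_dl hp h]

theorem tr_swap {H : ℝ → ℝ} {ab : Fr} (F : ℝ → T) (R : ℝ) :
    ⨆ c : ℝ × ℝ, F |lcnt ab H c R - area H * R ^ 2 / abs (fdet ab)| =
      ⨆ c : ℝ × ℝ, F |lcnt (ab.2, ab.1) H c R - area H * R ^ 2 / abs (fdet (ab.2, ab.1))| := by
  have e : fdet (ab.2, ab.1) = -fdet ab := by
    unfold fdet
    simp only
    ring
  rw [e, abs_neg]
  simp only [lcnt_swap]

theorem tr_shf {H : ℝ → ℝ} {ab : Fr} (v : ℝ × ℝ) (F : ℝ → T) (R : ℝ) :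
    ⨆ c : ℝ × ℝ, F |lcnt ab H c R - area H * R ^ 2 / abs (fdet ab)| =
      ⨆ c : ℝ × ℝ, F |lcnt ab (shf H v) c R - area (shf H v) * R ^ 2 / abs (fdet ab)| := by
  have hs : Function.Surjective fun c : ℝ × ℝ => ((c.1 - R * v.1, c.2 - R * v.2) : ℝ × ℝ) := fun d =>
    ⟨(d.1 + R * v.1, d.2 + R * v.2), by simp⟩
  rw [← hs.iSup_comp (g := fun c : ℝ × ℝ => F |lcnt ab (shf H v) c R - area (shf H v) * R ^ 2 / abs (fdet ab)|)]
  refine iSup_congr fun c => ?_
  have h2 : lcnt ab (shf H v) (c.1 - R * v.1, c.2 - R * v.2) R = lcnt ab H c R := by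
    unfold lcnt
    congr 1
    refine Nat.card_congr (Equiv.subtypeEquivRight fun k => ?_)
    refine forall_congr' fun t => ?_
    unfold shf
    simp only
    constructor
    · intro h
      linarith
    · intro h
      linarith
  rw [Pool.Agent.Helper22.OV.area_shf, h2]

/-- from almost every frame to almost every lattice, for every property of the function `R ↦ sup_c F |E_c(R)|` -/
theorem tr_ae {H : ℝ → ℝ} (hp : Function.Periodic H (2 * π)) {F : ℝ → T} {Q : (ℝ → T) → Prop}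
    (h : ∀ᵐ f : Fr, 0 < fdet f → Q fun R => ⨆ c : ℝ × ℝ, F |cntc (Hf H f) c R - area (Hf H f) * R ^ 2|) :
    ∀ᵐ ab : Fr, fdet ab ≠ 0 ∧ Q fun R => ⨆ c : ℝ × ℝ, F |lcnt ab H c R - area H * R ^ 2 / abs (fdet ab)| := by
  have h1 := ae_dual h
  have h2 : ∀ᵐ ab : Fr, 0 < fdet ab → Q fun R => ⨆ c : ℝ × ℝ, F |lcnt ab H c R - area H * R ^ 2 / abs (fdet ab)| := by
    filter_upwards [h1] with ab h hd
    have e : (fun R : ℝ => ⨆ c : ℝ × ℝ, F |lcnt ab H c R - area H * R ^ 2 / abs (fdet ab)|) =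
        fun R => ⨆ c : ℝ × ℝ, F |cntc (Hf H (dl ab)) c R - area (Hf H (dl ab)) * R ^ 2| := funext fun R => tr_dl hp hd.ne' F R
    rw [e]
    exact h hd
  have h3 := ae_swap h2
  filter_upwards [h2, h3, ae_det] with ab h4 h5 h6
  refine ⟨h6, ?_⟩
  rcases lt_or_gt_of_ne h6 with h7 | h7
  · have e : fdet (ab.2, ab.1) = -fdet ab := by
      unfold fdet
      simp only
      ring
    have e2 : (fun R : ℝ => ⨆ c : ℝ × ℝ, F |lcnt ab H c R - area H * R ^ 2 / abs (fdet ab)|) =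
        fun R => ⨆ c : ℝ × ℝ, F |lcnt (ab.2, ab.1) H c R - area H * R ^ 2 / abs (fdet (ab.2, ab.1))| := funext fun R => tr_swap F R
    rw [e2]
    exact h5 (by rw [e]; linarith)
  · exact h4 h7

/-- with the shift of the oval to a positive support function -/
theorem tr_main {H : ℝ → ℝ} (h2 : ContDiff ℝ 2 H) (hp : Function.Periodic H (2 * π)) (hr : ∀ t, 0 < H t + deriv (deriv H) t) {F : ℝ → T}
    {Q : (ℝ → T) → Prop} (h : ∀ v : ℝ × ℝ, IsSupp (shf H v) → ∀ᵐ f : Fr, 0 < fdet f →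
      Q fun R => ⨆ c : ℝ × ℝ, F |cntc (Hf (shf H v) f) c R - area (Hf (shf H v) f) * R ^ 2|) :
    ∀ᵐ ab : Fr, fdet ab ≠ 0 ∧ Q fun R => ⨆ c : ℝ × ℝ, F |lcnt ab H c R - area H * R ^ 2 / abs (fdet ab)| := by
  obtain ⟨v, hv⟩ := Pool.Agent.Helper22.OV.exists_shift h2 hp hr
  filter_upwards [tr_ae (F := F) (Q := Q) hv.per (h v hv)] with ab h1
  refine ⟨h1.1, ?_⟩
  have e : (fun R : ℝ => ⨆ c : ℝ × ℝ, F |lcnt ab H c R - area H * R ^ 2 / abs (fdet ab)|) =
      fun R => ⨆ c : ℝ × ℝ, F |lcnt ab (shf H v) c R - area (shf H v) * R ^ 2 / abs (fdet ab)| := funext fun R => tr_shf v F R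
  rw [e]
  exact h1.2

end Pool.Agent.Helper64.LMA
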