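import Pool.Agent.Helper64.LMA.Ws
import Pool.Agent.Helper54.LMA.Fin
import Pool.Agent.Helper33.LM.S3
import Pool.Agent.Helper64.LM.Num
import Pool.Agent.Helper75.LM.Mom
import Pool.Agent.Helper86.LK.M

/-!
# Project LMA: the moments of small frequencies without `X ^ ε`, for almost every frame
-/

open MeasureTheory Real Set Filter Topology Metric

set_option autoImplicit false

namespace Pool.Agent.Helper64.LMA

open Pool.Agent.Helper22.AE
open Pool.Agent.Helper22.AC (cntc ga)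
open Pool.Agent.Helper22.OV (o3_k0_cont o3_k0_nonneg card_sqa_o3)
open Pool.Agent.Helper92.GC (dt tp sqa Tq tp_cont)
open Pool.Agent.Helper92.DT (m12)
open Pool.Agent.Helper75.TW (m20 J20 Mm mm_J20 mm_JJ MomF F12 momS_all)
open Pool.Agent.Helper75.GD (WJ beta_pos75)
open Pool.Agent.Helper75.LM (Md d20 d12 mass20 SB ae_JF)
open Pool.Agent.Helper92.LA (JJ)
open Pool.Agent.Helper22.LP (Fr fv fk fdet nr tr nr_eq hom)

/-- comparison of two polynomials -/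
theorem cmp_gen (S : Finset (ℤ × ℤ)) (a a' : ℤ × ℤ → ℂ) (h : ∑ k ∈ S, ‖a k - a' k‖ ≤ 1) (q : ℕ) :
    ∫ c in Tq, ‖tp S a c‖ ^ q ≤ 2 ^ q * ((∫ c in Tq, ‖tp S a' c‖ ^ q) + 1) := by
  have hv : (volume Tq).toReal = 1 := by
    unfold Tq
    rw [Measure.volume_eq_prod, Measure.prod_prod, Real.volume_Icc]
    simp
  have hc : IsCompact Tq := isCompact_Icc.prod isCompact_Icc
  have hpt : ∀ c : ℝ × ℝ, ‖tp S a c‖ ^ q ≤ 2 ^ q * (‖tp S a' c‖ ^ q + 1) := by
    intro c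
    have h1 : ‖tp S a c - tp S a' c‖ ≤ 1 := by
      unfold tp
      rw [← Finset.sum_sub_distrib]
      refine (norm_sum_le _ _).trans (le_trans (Finset.sum_le_sum fun k _ => ?_) h)
      rw [← sub_mul, norm_mul, ee_norm, mul_one]
    have h2 : ‖tp S a c‖ ≤ ‖tp S a' c‖ + 1 := by
      calc ‖tp S a c‖ = ‖tp S a' c + (tp S a c - tp S a' c)‖ := by rw [add_sub_cancel]
        _ ≤ ‖tp S a' c‖ + ‖tp S a c - tp S a' c‖ := norm_add_le _ _
        _ ≤ _ := by linarith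
    have h0 : 0 ≤ ‖tp S a' c‖ := norm_nonneg _
    have hp : 0 ≤ ‖tp S a' c‖ ^ q := by positivity
    rcases le_total ‖tp S a' c‖ 1 with h3 | h3
    · calc ‖tp S a c‖ ^ q ≤ 2 ^ q := pow_le_pow_left₀ (norm_nonneg _) (by linarith) q
        _ = 2 ^ q * 1 := (mul_one _).symm
        _ ≤ _ := mul_le_mul_of_nonneg_left (by linarith) (by positivity)
    · calc ‖tp S a c‖ ^ q ≤ (2 * ‖tp S a' c‖) ^ q := pow_le_pow_left₀ (norm_nonneg _) (by linarith) q
        _ = 2 ^ q * ‖tp S a' c‖ ^ q := mul_pow _ _ _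
        _ ≤ _ := mul_le_mul_of_nonneg_left (by linarith) (by positivity)
  have i0 : IntegrableOn (fun c => ‖tp S a' c‖ ^ q) Tq := (((tp_cont _ _).norm.pow q).continuousOn).integrableOn_compact hc
  have i1 : IntegrableOn (fun _ : ℝ × ℝ => (1 : ℝ)) Tq := continuousOn_const.integrableOn_compact hc
  have i2 : IntegrableOn (fun c => ‖tp S a' c‖ ^ q + 1) Tq := i0.add i1
  calc ∫ c in Tq, ‖tp S a c‖ ^ q ≤ ∫ c in Tq, 2 ^ q * (‖tp S a' c‖ ^ q + 1) := by
        refine setIntegral_mono_on ?_ (i2.const_mul _) hc.measurableSet fun c _ => hpt c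
        exact (((tp_cont _ _).norm.pow q).continuousOn).integrableOn_compact hc
    _ = 2 ^ q * ((∫ c in Tq, ‖tp S a' c‖ ^ q) + 1) := by
        rw [integral_const_mul, integral_add i0 i1, setIntegral_const, Measure.real, hv, one_smul]

theorem mq20 : Mq d20 J20 20 where
  cov f h N _ _ _ hY hXY := Pool.Agent.Helper54.LMA.cov20 f h N hY hXY
  dya f h N _ _ _ hiy := Pool.Agent.Helper54.LMA.dya20 f h N hiy
  cmp f h h' N r hs := cmp_gen (sqa N) (fun k => ee (r * h (fk f k))) (fun k => ee (r * h' (fk f k))) hs 20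

theorem mq12 : Mq d12 JJ 12 where
  cov f h N _ _ _ hY hXY := Pool.Agent.Helper54.LMA.cov12 f h N hY hXY
  dya f h N _ _ _ hiy := Pool.Agent.Helper54.LMA.dya12 f h N hiy
  cmp f h h' N r hs := cmp_gen (sqa N) (fun k => ee (r * h (fk f k))) (fun k => ee (r * h' (fk f k))) hs 12

private theorem per_bdd64 {f : ℝ → ℝ} (hc : Continuous f) (hp : Function.Periodic f (2 * π)) : ∃ V : ℝ, 0 ≤ V ∧ ∀ t, |f t| ≤ V := by
  obtain ⟨x, _, hx⟩ := (isCompact_Icc (a := (0 : ℝ)) (b := 2 * π)).exists_isMaxOn ⟨0, by constructor <;> positivity⟩ hc.abs.continuousOn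
  refine ⟨|f x|, abs_nonneg _, fun t => ?_⟩
  obtain ⟨s, hs, he⟩ := hp.exists_mem_Ico₀ (by positivity) t
  rw [he]
  exact hx ⟨hs.1, hs.2.le⟩

/-- the phases are Lipschitz in `α` at `0` -/
theorem ga_lip {H : ℝ → ℝ} (h2 : ContDiff ℝ 2 H) (hp : Function.Periodic H (2 * π)) : ∃ L : ℝ, ∀ α t, |ga H α t - ga H 0 t| ≤ L * |α| := by
  have hd : Differentiable ℝ H := h2.differentiable (by norm_num)
  have h1 : ContDiff ℝ 1 (deriv H) := ((contDiff_succ_iff_deriv (n := 1)).1 h2).2.2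
  have hdp : Function.Periodic (deriv H) (2 * π) := by
    intro x
    have e : (fun y => H (y + 2 * π)) = H := funext hp
    rw [← deriv_comp_add_const H (2 * π) x, e]
  obtain ⟨A0, hA0, hB0⟩ := per_bdd64 h2.continuous hp
  obtain ⟨A1, hA1, hB1⟩ := per_bdd64 h1.continuous hdp
  refine ⟨2 * A1 + 2 * A0, fun α t => ?_⟩
  have hlip : |H (t + α) - H t| ≤ A1 * |α| := by
    have h3 := Convex.norm_image_sub_le_of_norm_deriv_le (f := H) (s := Set.univ) (C := A1) (fun x _ => hd x) (fun x _ => by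
      rw [Real.norm_eq_abs]
      exact hB1 x) convex_univ (Set.mem_univ t) (Set.mem_univ (t + α))
    rw [Real.norm_eq_abs, Real.norm_eq_abs] at h3
    have e : t + α - t = α := by ring
    rwa [e] at h3
  have hcos : |cos α - 1| ≤ 2 * |α| := by
    have h3 : cos α ≤ 1 := Real.cos_le_one α
    rw [abs_sub_comm, abs_of_nonneg (by linarith)]
    rcases le_total |α| 1 with h4 | h4
    · have h5 := Real.one_sub_sq_div_two_le_cos (x := α)
      have h6 : α ^ 2 ≤ |α| := by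
        rw [← sq_abs]
        have := abs_nonneg α
        nlinarith
      have := abs_nonneg α
      linarith
    · have := Real.neg_one_le_cos α
      linarith
  have hsin : |sin α| ≤ |α| := Real.abs_sin_le_abs
  have e : ga H α t - ga H 0 t = (H (t + α) - H t) + H (t + α) * (cos α - 1) - deriv H (t + α) * sin α := by
    unfold ga
    rw [add_zero, cos_zero, sin_zero]
    ring
  rw [e]
  have b1 : |H (t + α) * (cos α - 1)| ≤ A0 * (2 * |α|) := by
    rw [abs_mul]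
    exact mul_le_mul (hB0 _) hcos (abs_nonneg _) hA0
  have b2 : |deriv H (t + α) * sin α| ≤ A1 * |α| := by
    rw [abs_mul]
    exact mul_le_mul (hB1 _) hsin (abs_nonneg _) hA1
  calc |(H (t + α) - H t) + H (t + α) * (cos α - 1) - deriv H (t + α) * sin α|
      ≤ |(H (t + α) - H t) + H (t + α) * (cos α - 1)| + |deriv H (t + α) * sin α| := abs_sub _ _
    _ ≤ |H (t + α) - H t| + |H (t + α) * (cos α - 1)| + |deriv H (t + α) * sin α| := by
        have := abs_add_le (H (t + α) - H t) (H (t + α) * (cos α - 1))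
        linarith
    _ ≤ A1 * |α| + A0 * (2 * |α|) + A1 * |α| := by linarith
    _ = (2 * A1 + 2 * A0) * |α| := by ring

/-- almost every frame -/
theorem ws_ae {md J : Fr → (ℝ × ℝ → ℝ) → ℝ → ℕ → ℝ} {q : ℕ} (hm : Mm J) (hd : Md md J q) (hM : Mq md J q) {F : ℝ → ℝ → ℝ}
    (hF : ∀ X N : ℝ, 1 ≤ X → 1 ≤ N → 0 < F X N) {P : (ℝ × ℝ → ℝ) → Prop} {μ ν : ℝ} {B : ℕ} (hmom : MomF J F P 0 ν) (hμν : μ ≤ ν) (hB : 1 ≤ μ * B)
    (hB1 : 1 ≤ B) (hnum : ∀ X N : ℝ, 1 ≤ X → 1 ≤ N → N ≤ X ^ μ → F X N ≤ 2 * (X * N ^ q)) {H : ℝ → ℝ} (hH : IsSupp H)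
    (hjc : Continuous fun q : ℝ × (ℝ × ℝ) => hom (ga H q.1) q.2) {α₀ : ℝ} (ha0 : 0 < α₀) (ha1 : α₀ < π / 2)
    (hP : ∀ α ∈ Icc (-α₀) α₀, P (hom (ga H α))) : ∀ᵐ f : Fr, 0 < fdet f → WS J H α₀ μ q f := by
  have hpi4 := Real.pi_lt_four
  obtain ⟨L, hL⟩ := ga_lip hH.smooth hH.per
  have hX1 : ∀ p : ℕ, (1 : ℝ) ≤ 2 ^ p := fun p => one_le_pow₀ (by norm_num)
  have a1 := ae_JF hm hF hmom (h := fun α => hom (ga H α)) hjc (α₀ := α₀) hP
    (κ := fun p n => k0 (1 / sqrt ((2 : ℝ) ^ p * ((2 ^ n : ℕ) : ℝ)))) (fun p n => o3_k0_cont (beta_pos75 p n)) (fun p n => o3_k0_nonneg (beta_pos75 p n))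
    (K := 20) (fun p n => mass20 ha0 ha1 (beta_pos75 p n))
  have hv : (volume : Measure ℝ).real (Icc (-α₀) α₀) = 2 * α₀ := by
    rw [Real.volume_real_Icc_of_le (by linarith)]
    ring
  have a2 := ae_JF hm hF hmom (h := fun _ => hom (ga H 0)) (hjc.comp (continuous_const.prodMk continuous_snd)) (α₀ := α₀)
    (fun _ _ => hP 0 ⟨by linarith, ha0.le⟩) (κ := fun _ _ _ => 1) (fun _ _ => continuous_const) (fun _ _ _ => zero_le_one)
    (K := 4) (fun _ _ => by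
      rw [setIntegral_const, hv, smul_eq_mul, mul_one]
      linarith)
  have a3 := ae_JF hm hF hmom (h := fun α => hom (ga H α)) hjc (α₀ := α₀) hP (κ := fun _ _ _ => 1) (fun _ _ => continuous_const) (fun _ _ _ => zero_le_one)
    (K := 4) (fun _ _ => by
      rw [setIntegral_const, hv, smul_eq_mul, mul_one]
      linarith)
  have hz : ∀ p n : ℕ, ((2 : ℝ) ^ p) ^ (0 : ℝ) ≤ (2 : ℝ) ^ n := fun p n => by
    rw [rpow_zero]
    exact hX1 n
  have hν : ∀ p n : ℕ, (2 : ℝ) ^ n ≤ ((2 : ℝ) ^ p) ^ μ → (2 : ℝ) ^ n ≤ ((2 : ℝ) ^ p) ^ ν := fun p n h =>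
    h.trans (rpow_le_rpow_of_exponent_le (hX1 p) hμν)
  have hconv : ∀ (C Xe : ℝ) (p n : ℕ) (W : ℝ), 0 ≤ C → 0 ≤ Xe → (2 : ℝ) ^ n ≤ ((2 : ℝ) ^ p) ^ μ → W ≤ C * (Xe * F (2 ^ p) (2 ^ n)) →
      W ≤ 2 * C * (Xe * (2 ^ p * (2 ^ n) ^ q)) := by
    intro C Xe p n W hC hXe hn hW
    calc W ≤ C * (Xe * F (2 ^ p) (2 ^ n)) := hW
      _ ≤ C * (Xe * (2 * (2 ^ p * (2 ^ n) ^ q))) := mul_le_mul_of_nonneg_left (mul_le_mul_of_nonneg_left (hnum _ _ (hX1 p) (hX1 n) hn) hXe) hC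
      _ = _ := by ring
  filter_upwards [a1, a2, a3] with f h1 h2 h3 hdet
  refine ws_of hd hM hjc hL ha0 ha1 hB hB1 (fun e he => ?_) (fun e he => ?_) (fun e he => ?_)
  · obtain ⟨C, hC, h⟩ := h1 hdet e he
    exact ⟨2 * C, by positivity, fun p n hnp hn => hconv C _ p n _ hC (by positivity) hn (h p n hnp (hz p n) (hν p n hn))⟩
  · obtain ⟨C, hC, h⟩ := h2 hdet e he
    refine ⟨2 * C * (1 / (2 * α₀)), by positivity, fun p n hnp hn => ?_⟩
    have s1 := hconv C _ p n _ hC (by positivity) hn (h p n hnp (hz p n) (hν p n hn))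
    simp only [one_mul] at s1
    rw [setIntegral_const, hv, smul_eq_mul] at s1
    have s2 : J f (hom (ga H 0)) (2 ^ p) (2 ^ n) = (1 / (2 * α₀)) * (2 * α₀ * J f (hom (ga H 0)) (2 ^ p) (2 ^ n)) := by
      field_simp
    rw [s2]
    calc (1 / (2 * α₀)) * (2 * α₀ * J f (hom (ga H 0)) (2 ^ p) (2 ^ n)) ≤ (1 / (2 * α₀)) * (2 * C * (((2 : ℝ) ^ p) ^ e * (2 ^ p * (2 ^ n) ^ q))) :=
          mul_le_mul_of_nonneg_left s1 (by positivity)
      _ = _ := by ring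
  · obtain ⟨C, hC, h⟩ := h3 hdet e he
    refine ⟨2 * C, by positivity, fun p n hnp hn => ?_⟩
    have s1 := hconv C _ p n _ hC (by positivity) hn (h p n hnp (hz p n) (hν p n hn))
    simp only [one_mul] at s1
    exact s1

/-- order 20 (affine curvature without multiple zeros): `N ≤ X ^ (1/17)` -/
theorem ws20 {H : ℝ → ℝ} (hH : IsSupp H) {α₀ : ℝ} (ha0 : 0 < α₀) (ha1 : α₀ < π / 2)
    (hjc : Continuous fun q : ℝ × (ℝ × ℝ) => hom (ga H q.1) q.2)
    {P : (ℝ × ℝ → ℝ) → Prop} (hP : ∀ α ∈ Icc (-α₀) α₀, P (hom (ga H α)))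
    (hq : MomF J20 (fun X N => X * (N ^ 20 + N ^ 34 * (X * N) ^ (-(7 / 4) : ℝ))) P 0 (1 / 3)) :
    ∀ᵐ f : Fr, 0 < fdet f → WS J20 H α₀ (2 * (9 / 17) - 1) 20 f :=
  ws_ae mm_J20 Pool.Agent.Helper75.LM.md_20 mq20 (fun X N hX hN => by
      have hX0 : 0 < X := by linarith
      have hN0 : 0 < N := by linarith
      show 0 < X * (N ^ 20 + N ^ 34 * (X * N) ^ (-(7 / 4) : ℝ))
      positivity) (B := 17) hq (by norm_num) (by norm_num) (by norm_num) (fun X N hX hN h => by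
      have h1 := Pool.Agent.Helper75.LM.num_a hX hN (by rw [show (2 * (9 / 17) - 1 : ℝ) = 1 / 17 by norm_num] at h; exact h)
      have e : SB 36 20 (9 / 17) X N = X * N ^ 20 := by
        unfold SB
        rw [show (((36 : ℕ) : ℝ) - 2) * (9 / 17 - 1 / 2) = 1 by norm_num, rpow_one]
      rw [e] at h1
      exact h1) hH hjc ha0 ha1 hP

/-- order 12 (every oval): `N ≤ X ^ (1/9)` -/
theorem ws12 {H : ℝ → ℝ} (hH : IsSupp H) {α₀ c₁ B : ℝ} (ha0 : 0 < α₀) (ha1 : α₀ < π / 2) (hc₁ : 0 < c₁) (hc₁1 : c₁ ≤ 1) (hB : 1 ≤ B)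
    (hjc : Continuous fun q : ℝ × (ℝ × ℝ) => hom (ga H q.1) q.2)
    (hP : ∀ α ∈ Icc (-α₀) α₀, Pool.Agent.Helper60.LT.Hom c₁ B (hom (ga H α))) : ∀ᵐ f : Fr, 0 < fdet f → WS JJ H α₀ (2 * (5 / 9) - 1) 12 f :=
  ws_ae mm_JJ Pool.Agent.Helper75.LM.md_12 mq12 (F := F12) (fun X N hX hN => by
      have hX0 : 0 < X := by linarith
      have hN0 : 0 < N := by linarith
      unfold F12
      positivity) (B := 9) (Pool.Agent.Helper86.LK.momF12 hc₁ hc₁1 hB (momS_all hc₁ hc₁1 hB) (ν₂ := 0) (ν₃ := 1) le_rfl) (by norm_num) (by norm_num)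
      (by norm_num) (fun X N hX hN h => by
      have h1 := Pool.Agent.Helper75.LM.num_d hX hN (by rw [show (2 * (5 / 9) - 1 : ℝ) = 1 / 9 by norm_num] at h; exact h)
      have e : SB 20 12 (5 / 9) X N = X * N ^ 12 := by
        unfold SB
        rw [show (((20 : ℕ) : ℝ) - 2) * (5 / 9 - 1 / 2) = 1 by norm_num, rpow_one]
      rw [e] at h1
      exact h1) hH hjc ha0 ha1 hP

end Pool.Agent.Helper64.LMA
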