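import Pool.Agent.Helper64.LMA.Ae
import Pool.Agent.Helper75.LMA.One
import Pool.Agent.Helper75.LM.Asm

/-!
# Project LMA: the block bounds with a power saving, for almost every frame
-/

open MeasureTheory Real Set Filter Topology Metric
open scoped ENNReal NNReal

set_option autoImplicit false

namespace Pool.Agent.Helper64.LMA

open Pool.Agent.Helper22.AE
open Pool.Agent.Helper22.AC (cntc ga)
open Pool.Agent.Helper22.OV (shf o3_k0_cont o3_k0_nonneg)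
open Pool.Agent.Helper75.TW (m20 J20 Mm mm_J20 mm_JJ TB MomF F12 AffPos AffOk afn momS_all)
open Pool.Agent.Helper75.GD (WJ LB beta_pos75)
open Pool.Agent.Helper75.LM (num_b num_c num_e mass20 ae_JF)
open Pool.Agent.Helper75.LMA (BlkT blkT_of)
open Pool.Agent.Helper92.LA (JJ Fb HL WL lcnt dl)
open Pool.Agent.Helper22.LP (Fr fk fdet hom LS wr Hf)

/-- the orders `20 ≤ s < 36`, with the moments of order 20 -/
theorem blk20 {H : ℝ → ℝ} (hH : IsSupp H) {α₀ c₁ B : ℝ} (ha0 : 0 < α₀) (ha1 : α₀ < π / 2) (hc₁ : 0 < c₁) (hc₁1 : c₁ ≤ 1) (hB : 1 ≤ B)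
    (hjc : Continuous fun q : ℝ × (ℝ × ℝ) => hom (ga H q.1) q.2)
    (hfam : ∀ α ∈ Icc (-α₀) α₀, Pool.Agent.Helper60.LT.Hom c₁ B (hom (ga H α)) ∧ HL B (hom (ga H α)) ∧ WL B (wr H α) ∧ WL B (fun _ => 1))
    {P : (ℝ × ℝ → ℝ) → Prop} (hP : ∀ α ∈ Icc (-α₀) α₀, P (hom (ga H α)))
    (hq : MomF J20 (fun X N => X * (N ^ 20 + N ^ 34 * (X * N) ^ (-(7 / 4) : ℝ))) P 0 (1 / 3)) :
    ∀ᵐ f : Fr, 0 < fdet f → ∀ s : ℝ, ((20 : ℕ) : ℝ) ≤ s → s < 36 → ∃ e0 : ℝ, 0 < e0 ∧ ∀ e : ℝ, 0 < e → e ≤ e0 → BlkT (Hf H f) s e := by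
  have h1 := ae_JF mm_J20 (fun X N hX hN => by
      have hX0 : 0 < X := by linarith
      have hN0 : 0 < N := by linarith
      show 0 < X * (N ^ 20 + N ^ 34 * (X * N) ^ (-(7 / 4) : ℝ))
      positivity) hq (h := fun α => hom (ga H α)) hjc (α₀ := α₀) hP
    (κ := fun p n => k0 (1 / sqrt ((2 : ℝ) ^ p * ((2 ^ n : ℕ) : ℝ)))) (fun p n => o3_k0_cont (beta_pos75 p n)) (fun p n => o3_k0_nonneg (beta_pos75 p n))
    (K := 20) (fun p n => mass20 ha0 ha1 (beta_pos75 p n))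
  have h2 := ae_JF mm_JJ (F := F12) (fun X N hX hN => by
      have hX0 : 0 < X := by linarith
      have hN0 : 0 < N := by linarith
      unfold F12
      positivity) (Pool.Agent.Helper86.LK.momF12 hc₁ hc₁1 hB (momS_all hc₁ hc₁1 hB) (ν₂ := 0) (ν₃ := 1) le_rfl) (h := fun α => hom (ga H α)) hjc (α₀ := α₀)
    (fun α hα => (hfam α hα).1)
    (κ := fun p n => k0 (1 / sqrt ((2 : ℝ) ^ p * ((2 ^ n : ℕ) : ℝ)))) (fun p n => o3_k0_cont (beta_pos75 p n)) (fun p n => o3_k0_nonneg (beta_pos75 p n))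
    (K := 20) (fun p n => mass20 ha0 ha1 (beta_pos75 p n))
  have hX1 : ∀ p : ℕ, (1 : ℝ) ≤ 2 ^ p := fun p => one_le_pow₀ (by norm_num)
  have hz : ∀ p n : ℕ, ((2 : ℝ) ^ p) ^ (0 : ℝ) ≤ (2 : ℝ) ^ n := fun p n => by
    rw [rpow_zero]
    exact hX1 n
  filter_upwards [h1, h2, ws20 hH ha0 ha1 hjc hP hq] with f hf hf' hws hdet
  refine blkT_of hH ha0 ha1 hjc (fun α hα => (hfam α hα).2) hdet.ne' Pool.Agent.Helper75.LM.md_20 Pool.Agent.Helper75.LM.md_12 (q := 20) (q' := 12)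
    (P := 36) (by norm_num) (by norm_num) (by norm_num) (by norm_num) (θ := 9 / 17) (ν₂ := 1 / 4) (by norm_num) (by norm_num) (by norm_num)
    (hws hdet) (fun e he _ => ?_) fun e he he1 => ?_
  · obtain ⟨C, hC, h⟩ := hf hdet e he
    refine ⟨2 * C, by positivity, fun p n hnp a b => ?_⟩
    have hn := num_b (hX1 p) (hX1 n) (by rw [show (2 * (9 / 17) - 1 : ℝ) = 1 / 17 by norm_num] at a; exact a) b
    refine (h p n hnp (hz p n) (b.trans (rpow_le_rpow_of_exponent_le (hX1 p) (by norm_num)))).trans ?_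
    calc C * (((2 : ℝ) ^ p) ^ e * (2 ^ p * ((2 ^ n) ^ 20 + (2 ^ n) ^ 34 * (2 ^ p * 2 ^ n) ^ (-(7 / 4) : ℝ))))
        ≤ C * (((2 : ℝ) ^ p) ^ e * (2 * TB 20 (9 / 17) (2 ^ p) (2 ^ n))) := mul_le_mul_of_nonneg_left (mul_le_mul_of_nonneg_left hn (by positivity)) hC
      _ = _ := by ring
  · obtain ⟨C, hC, h⟩ := hf' hdet e he
    refine ⟨2 * C, by positivity, fun p n hnp _ b c => ?_⟩
    have hn := num_c (hX1 p) (hX1 n) b (c.trans (rpow_le_rpow_of_exponent_le (hX1 p) (by linarith)))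
    refine (h p n hnp (hz p n) (c.trans (rpow_le_rpow_of_exponent_le (hX1 p) (by linarith)))).trans ?_
    calc C * (((2 : ℝ) ^ p) ^ e * F12 (2 ^ p) (2 ^ n)) ≤ C * (((2 : ℝ) ^ p) ^ e * (2 * TB 12 (9 / 17) (2 ^ p) (2 ^ n))) :=
          mul_le_mul_of_nonneg_left (mul_le_mul_of_nonneg_left hn (by positivity)) hC
      _ = _ := by ring

/-- the orders `12 ≤ s < 20`, every oval of class `C⁵` -/
theorem blk12 {H : ℝ → ℝ} (hH : IsSupp H) (h5 : ContDiff ℝ 5 H) :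
    ∀ᵐ f : Fr, 0 < fdet f → ∀ s : ℝ, ((12 : ℕ) : ℝ) ≤ s → s < 20 → ∃ e0 : ℝ, 0 < e0 ∧ ∀ e : ℝ, 0 < e → e ≤ e0 → BlkT (Hf H f) s e := by
  obtain ⟨α₀, c₁, B, ha0, ha1, hc₁, hc₁1, hB, hjc, hfam⟩ := Pool.Agent.Helper92.LA.fam hH h5
  have h2 := ae_JF mm_JJ (F := F12) (fun X N hX hN => by
      have hX0 : 0 < X := by linarith
      have hN0 : 0 < N := by linarith
      unfold F12
      positivity) (Pool.Agent.Helper86.LK.momF12 hc₁ hc₁1 hB (momS_all hc₁ hc₁1 hB) (ν₂ := 0) (ν₃ := 1) le_rfl) (h := fun α => hom (ga H α)) hjc (α₀ := α₀)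
    (fun α hα => (hfam α hα).1)
    (κ := fun p n => k0 (1 / sqrt ((2 : ℝ) ^ p * ((2 ^ n : ℕ) : ℝ)))) (fun p n => o3_k0_cont (beta_pos75 p n)) (fun p n => o3_k0_nonneg (beta_pos75 p n))
    (K := 20) (fun p n => mass20 ha0 ha1 (beta_pos75 p n))
  have hX1 : ∀ p : ℕ, (1 : ℝ) ≤ 2 ^ p := fun p => one_le_pow₀ (by norm_num)
  have hz : ∀ p n : ℕ, ((2 : ℝ) ^ p) ^ (0 : ℝ) ≤ (2 : ℝ) ^ n := fun p n => by
    rw [rpow_zero]
    exact hX1 n
  filter_upwards [h2, ws12 hH ha0 ha1 hc₁ hc₁1 hB hjc (fun α hα => (hfam α hα).1)] with f hf' hws hdet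
  have key : ∀ e : ℝ, 0 < e → e ≤ 1 / 102 → ∃ C : ℝ, 0 ≤ C ∧ ∀ p n : ℕ, n ≤ p → ((2 : ℝ) ^ p) ^ (2 * (5 / 9) - 1 : ℝ) ≤ (2 : ℝ) ^ n →
      (2 : ℝ) ^ n ≤ ((2 : ℝ) ^ p) ^ (1 / 2 + e) → WJ JJ H α₀ p n f ≤ C * (((2 : ℝ) ^ p) ^ e * TB 12 (5 / 9) ((2 : ℝ) ^ p) (2 ^ n)) := by
    intro e he he1
    obtain ⟨C, hC, h⟩ := hf' hdet e he
    refine ⟨2 * C, by positivity, fun p n hnp a c => ?_⟩
    have hn := num_e (hX1 p) (hX1 n) (by rw [show (2 * (5 / 9) - 1 : ℝ) = 1 / 9 by norm_num] at a; exact a)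
      (c.trans (rpow_le_rpow_of_exponent_le (hX1 p) (by linarith)))
    refine (h p n hnp (hz p n) (c.trans (rpow_le_rpow_of_exponent_le (hX1 p) (by linarith)))).trans ?_
    calc C * (((2 : ℝ) ^ p) ^ e * F12 (2 ^ p) (2 ^ n)) ≤ C * (((2 : ℝ) ^ p) ^ e * (2 * TB 12 (5 / 9) (2 ^ p) (2 ^ n))) :=
          mul_le_mul_of_nonneg_left (mul_le_mul_of_nonneg_left hn (by positivity)) hC
      _ = _ := by ring
  refine blkT_of hH ha0 ha1 hjc (fun α hα => (hfam α hα).2) hdet.ne' Pool.Agent.Helper75.LM.md_12 Pool.Agent.Helper75.LM.md_12 (q := 12) (q' := 12)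
    (P := 20) (by norm_num) (by norm_num) (by norm_num) (by norm_num) (θ := 5 / 9) (ν₂ := 1 / 2) (by norm_num) (by norm_num) (by norm_num)
    (hws hdet) (fun e he he1 => ?_) fun e he he1 => ?_
  · obtain ⟨C, hC, h⟩ := key e he he1
    exact ⟨C, hC, fun p n hnp a b => h p n hnp a (b.trans (rpow_le_rpow_of_exponent_le (hX1 p) (by linarith)))⟩
  · obtain ⟨C, hC, h⟩ := key e he he1
    exact ⟨C, hC, fun p n hnp a _ c => h p n hnp a c⟩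

end Pool.Agent.Helper64.LMA
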