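import Pool.Agent.Helper64.LMA.Asm
import Pool.Agent.Helper64.LMA.Fr
import Pool.Agent.Helper33.LMA.LawL

/-!
# Project LMA: the asymptotic formulas and the limit law at the worst centre for almost every lattice: the three classes of ovals
-/

open MeasureTheory Real Set Filter Topology
open scoped ENNReal NNReal

set_option autoImplicit false

namespace Pool.Agent.Helper64.LMA

open Pool.Agent.Helper22.AE
open Pool.Agent.Helper22.AC (cntc ga)
open Pool.Agent.Helper22.OV (shf)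
open Pool.Agent.Helper75.TW (AffPos AffOk afn)
open Pool.Agent.Helper22.LP (Fr fdet Hf)
open Pool.Agent.Helper33.LMA (LawL lawL_of)

/-- every oval of class `C⁵` -/
theorem blkAll_12 {H : ℝ → ℝ} (h5 : ContDiff ℝ 5 H) (v : ℝ × ℝ) (hv : IsSupp (shf H v)) :
    ∀ᵐ f : Fr, 0 < fdet f → BlkAll (Hf (shf H v) f) 12 20 := by
  filter_upwards [blk12 hv (Pool.Agent.Helper22.OV.shf_smooth v h5)] with f hf hdet s hs hs'
  exact hf hdet s (by push_cast; exact hs) hs'

/-- ovals with positive affine curvature -/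
theorem blkAll_aff {H : ℝ → ℝ} (h6 : ContDiff ℝ 6 H) (ha : AffPos H) (v : ℝ × ℝ) (hv : IsSupp (shf H v)) :
    ∀ᵐ f : Fr, 0 < fdet f → BlkAll (Hf (shf H v) f) 20 36 := by
  have h2 : ContDiff ℝ 2 H := h6.of_le (by norm_num)
  have e : rho (Pool.Agent.Helper22.OV.shf H v) = rho H := by
    funext t
    exact Pool.Agent.Helper22.OV.shf_rho v h2 t
  have ha' : AffPos (Pool.Agent.Helper22.OV.shf H v) := by
    intro t
    rw [e]
    exact ha t
  have h6' := Pool.Agent.Helper22.OV.shf_smooth v h6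
  obtain ⟨α₀, c₁, B, ha0, ha1, hc₁, hc₁1, hB, hjc, hfam⟩ := Pool.Agent.Helper3.AC.fam_aff hv h6' ha'
  filter_upwards [blk20 hv ha0 ha1 hc₁ hc₁1 hB hjc
    (fun α hα => ⟨(hfam α hα).1.hom, (hfam α hα).2⟩) (fun α hα => (hfam α hα).1) (Pool.Agent.Helper3.AC.mom_cpt20 hc₁ hB)] with f hf hdet s hs hs'
  exact hf hdet s (by push_cast; exact hs) hs'

/-- ovals whose affine curvature has no multiple zero -/
theorem blkAll_gen {H : ℝ → ℝ} (h7 : ContDiff ℝ 7 H) (ha : AffOk H) (v : ℝ × ℝ) (hv : IsSupp (shf H v)) :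
    ∀ᵐ f : Fr, 0 < fdet f → BlkAll (Hf (shf H v) f) 20 36 := by
  have h2 : ContDiff ℝ 2 H := h7.of_le (by norm_num)
  have e : rho (Pool.Agent.Helper22.OV.shf H v) = rho H := by
    funext t
    exact Pool.Agent.Helper22.OV.shf_rho v h2 t
  have e2 : afn (Pool.Agent.Helper22.OV.shf H v) = afn H := by
    unfold afn
    rw [e]
  have ha' : AffOk (Pool.Agent.Helper22.OV.shf H v) := by
    intro t
    rw [e2]
    exact ha t
  have h7' := Pool.Agent.Helper22.OV.shf_smooth v h7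
  obtain ⟨α₀, c₁, B, ha0, ha1, hc₁, hc₁1, hB, hjc, hfam⟩ := Pool.Agent.Helper92.AG.fam_gen hv h7' ha'
  filter_upwards [blk20 hv ha0 ha1 hc₁ hc₁1 hB hjc
    (fun α hα => ⟨(hfam α hα).1.hom, (hfam α hα).2⟩) (fun α hα => (hfam α hα).1) (Pool.Agent.Helper92.AG.mom_cptG hc₁ hB)] with f hf hdet s hs hs'
  exact hf hdet s (by push_cast; exact hs) hs'

/-- asymptotic formulas, every oval of class `C⁵` -/
theorem as_12 {H : ℝ → ℝ} (h5 : ContDiff ℝ 5 H) (hp : Function.Periodic H (2 * π)) (hr : ∀ t, 0 < H t + deriv (deriv H) t) :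
    ∀ᵐ ab : Fr, fdet ab ≠ 0 ∧ ∀ p ∈ Ioo (0 : ℝ) 20, AsL H p ab :=
  lma_of (h5.of_le (by norm_num)) hp hr (q := 12) (P := 20) (by norm_num) (by norm_num) (blkAll_12 h5)

/-- asymptotic formulas, ovals with positive affine curvature -/
theorem as_aff {H : ℝ → ℝ} (h6 : ContDiff ℝ 6 H) (hp : Function.Periodic H (2 * π)) (hr : ∀ t, 0 < H t + deriv (deriv H) t) (ha : AffPos H) :
    ∀ᵐ ab : Fr, fdet ab ≠ 0 ∧ ∀ p ∈ Ioo (0 : ℝ) 36, AsL H p ab :=
  lma_of (h6.of_le (by norm_num)) hp hr (q := 20) (P := 36) (by norm_num) (by norm_num) (blkAll_aff h6 ha)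

/-- asymptotic formulas, ovals whose affine curvature has no multiple zero -/
theorem as_gen {H : ℝ → ℝ} (h7 : ContDiff ℝ 7 H) (hp : Function.Periodic H (2 * π)) (hr : ∀ t, 0 < H t + deriv (deriv H) t) (ha : AffOk H) :
    ∀ᵐ ab : Fr, fdet ab ≠ 0 ∧ ∀ p ∈ Ioo (0 : ℝ) 36, AsL H p ab :=
  lma_of (h7.of_le (by norm_num)) hp hr (q := 20) (P := 36) (by norm_num) (by norm_num) (blkAll_gen h7 ha)

/-- limit law, every oval of class `C⁵` -/
theorem law_12 {H : ℝ → ℝ} (h5 : ContDiff ℝ 5 H) (hp : Function.Periodic H (2 * π)) (hr : ∀ t, 0 < H t + deriv (deriv H) t) :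
    ∀ᵐ ab : Fr, fdet ab ≠ 0 ∧ LawL H 20 ab :=
  lawL_of (h5.of_le (by norm_num)) hp hr (q := 12) (P := 20) (by norm_num) (by norm_num) (blkAll_12 h5)

/-- limit law, ovals with positive affine curvature -/
theorem law_aff {H : ℝ → ℝ} (h6 : ContDiff ℝ 6 H) (hp : Function.Periodic H (2 * π)) (hr : ∀ t, 0 < H t + deriv (deriv H) t) (ha : AffPos H) :
    ∀ᵐ ab : Fr, fdet ab ≠ 0 ∧ LawL H 36 ab :=
  lawL_of (h6.of_le (by norm_num)) hp hr (q := 20) (P := 36) (by norm_num) (by norm_num) (blkAll_aff h6 ha)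

/-- limit law, ovals whose affine curvature has no multiple zero -/
theorem law_gen {H : ℝ → ℝ} (h7 : ContDiff ℝ 7 H) (hp : Function.Periodic H (2 * π)) (hr : ∀ t, 0 < H t + deriv (deriv H) t) (ha : AffOk H) :
    ∀ᵐ ab : Fr, fdet ab ≠ 0 ∧ LawL H 36 ab :=
  lawL_of (h7.of_le (by norm_num)) hp hr (q := 20) (P := 36) (by norm_num) (by norm_num) (blkAll_gen h7 ha)

end Pool.Agent.Helper64.LMA
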