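import Pool.Agent.Helper64.LM.Meas

/-!
# Project LMA: the asymptotic formula at the worst centre, from frames to lattices
-/

open MeasureTheory Real Set Filter Topology
open scoped ENNReal NNReal

set_option autoImplicit false

namespace Pool.Agent.Helper64.LMA

open Pool.Agent.Helper22.AE
open Pool.Agent.Helper22.AC (cntc)
open Pool.Agent.Helper22.OV (shf)
open Pool.Agent.Helper92.LA (dl fdet_dl lcnt ae_dual ae_swap ae_det)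
open Pool.Agent.Helper22.LP (Fr fdet Hf)

/-- the asymptotic formula for the function `F` of the radius, of the order `X ^ (1 + p / 2)` -/
def AsF (F : ℝ → ℝ≥0∞) (p : ℝ) : Prop :=
  ∃ M : ℝ, 0 < M ∧ ∀ d : ℝ, 0 < d → ∃ X₀ : ℝ, 1 ≤ X₀ ∧ ∀ X : ℝ, X₀ ≤ X →
    (∫⁻ R in Icc 1 X, F R) ≠ ⊤ ∧ |(∫⁻ R in Icc 1 X, F R).toReal / X ^ (1 + p / 2) - M| ≤ d

/-- the asymptotic formula of order `p` at the worst centre, for the lattice `ℤ²` -/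
def As (H' : ℝ → ℝ) (p : ℝ) : Prop :=
  ∃ M : ℝ, 0 < M ∧ ∀ d : ℝ, 0 < d → ∃ X₀ : ℝ, 1 ≤ X₀ ∧ ∀ X : ℝ, X₀ ≤ X →
    (∫⁻ R in Icc 1 X, ⨆ c : ℝ × ℝ, ENNReal.ofReal (|cntc H' c R - area H' * R ^ 2| ^ p)) ≠ ⊤ ∧
    |(∫⁻ R in Icc 1 X, ⨆ c : ℝ × ℝ, ENNReal.ofReal (|cntc H' c R - area H' * R ^ 2| ^ p)).toReal / X ^ (1 + p / 2) - M| ≤ d

/-- the asymptotic formula of order `p` at the worst centre, for a lattice -/
def AsL (H : ℝ → ℝ) (p : ℝ) (ab : Fr) : Prop :=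
  ∃ M : ℝ, 0 < M ∧ ∀ d : ℝ, 0 < d → ∃ X₀ : ℝ, 1 ≤ X₀ ∧ ∀ X : ℝ, X₀ ≤ X →
    (∫⁻ R in Icc 1 X, ⨆ c : ℝ × ℝ, ENNReal.ofReal (|lcnt ab H c R - area H * R ^ 2 / abs (fdet ab)| ^ p)) ≠ ⊤ ∧
    |(∫⁻ R in Icc 1 X, ⨆ c : ℝ × ℝ, ENNReal.ofReal (|lcnt ab H c R - area H * R ^ 2 / abs (fdet ab)| ^ p)).toReal / X ^ (1 + p / 2) - M| ≤ d

theorem as_iff (H' : ℝ → ℝ) (p : ℝ) : As H' p ↔ AsF (fun R => ⨆ c : ℝ × ℝ, ENNReal.ofReal (|cntc H' c R - area H' * R ^ 2| ^ p)) p := Iff.rfl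

theorem asL_iff (H : ℝ → ℝ) (p : ℝ) (ab : Fr) :
    AsL H p ab ↔ AsF (fun R => ⨆ c : ℝ × ℝ, ENNReal.ofReal (|lcnt ab H c R - area H * R ^ 2 / abs (fdet ab)| ^ p)) p := Iff.rfl

theorem sup_shf_eq {H : ℝ → ℝ} {ab : Fr} (v : ℝ × ℝ) (F : ℝ → ℝ≥0∞) (R : ℝ) :
    ⨆ c : ℝ × ℝ, F |lcnt ab H c R - area H * R ^ 2 / abs (fdet ab)| =
      ⨆ c : ℝ × ℝ, F |lcnt ab (shf H v) c R - area (shf H v) * R ^ 2 / abs (fdet ab)| := by
  refine le_antisymm (Pool.Agent.Helper33.LM.sup_shf v F R) ?_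
  have h := Pool.Agent.Helper33.LM.sup_shf (H := shf H v) (ab := ab) (-v) F R
  have e : shf (shf H v) (-v) = H := by
    funext t
    unfold shf
    simp only [Prod.fst_neg, Prod.snd_neg]
    ring
  rwa [e] at h

/-- a frame and the dual lattice -/
theorem asL_of {H : ℝ → ℝ} (hp : Function.Periodic H (2 * π)) {p : ℝ} {ab : Fr} (h : fdet ab ≠ 0) (hb : As (Hf H (dl ab)) p) : AsL H p ab := by
  rw [asL_iff]
  rw [as_iff] at hb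
  have e : (fun R : ℝ => ⨆ c : ℝ × ℝ, ENNReal.ofReal (|lcnt ab H c R - area H * R ^ 2 / abs (fdet ab)| ^ p)) =
      fun R : ℝ => ⨆ c : ℝ × ℝ, ENNReal.ofReal (|cntc (Hf H (dl ab)) c R - area (Hf H (dl ab)) * R ^ 2| ^ p) := by
    funext R
    exact Pool.Agent.Helper75.LM.sup_dl_eq hp h (fun t => ENNReal.ofReal (t ^ p)) R
  rw [e]
  exact hb

theorem asL_swap {H : ℝ → ℝ} {p : ℝ} {ab : Fr} (h : AsL H p (ab.2, ab.1)) : AsL H p ab := by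
  rw [asL_iff] at h ⊢
  have e : (fun R : ℝ => ⨆ c : ℝ × ℝ, ENNReal.ofReal (|lcnt ab H c R - area H * R ^ 2 / abs (fdet ab)| ^ p)) =
      fun R : ℝ => ⨆ c : ℝ × ℝ, ENNReal.ofReal (|lcnt (ab.2, ab.1) H c R - area H * R ^ 2 / abs (fdet (ab.2, ab.1))| ^ p) := by
    funext R
    exact Pool.Agent.Helper33.LM.sup_swap (fun t => ENNReal.ofReal (t ^ p)) R
  rw [e]
  exact h

theorem asL_shf {H : ℝ → ℝ} {p : ℝ} {ab : Fr} (v : ℝ × ℝ) (h : AsL (shf H v) p ab) : AsL H p ab := by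
  rw [asL_iff] at h ⊢
  have e : (fun R : ℝ => ⨆ c : ℝ × ℝ, ENNReal.ofReal (|lcnt ab H c R - area H * R ^ 2 / abs (fdet ab)| ^ p)) =
      fun R : ℝ => ⨆ c : ℝ × ℝ, ENNReal.ofReal (|lcnt ab (shf H v) c R - area (shf H v) * R ^ 2 / abs (fdet ab)| ^ p) := by
    funext R
    exact sup_shf_eq v (fun t => ENNReal.ofReal (t ^ p)) R
  rw [e]
  exact h

/-- from almost every frame to almost every lattice, all orders in `S` at once -/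
theorem asL_ae {H : ℝ → ℝ} (hp : Function.Periodic H (2 * π)) {S : Set ℝ} (h : ∀ᵐ f : Fr, 0 < fdet f → ∀ p ∈ S, As (Hf H f) p) :
    ∀ᵐ ab : Fr, fdet ab ≠ 0 ∧ ∀ p ∈ S, AsL H p ab := by
  have h1 := ae_dual h
  have h2 : ∀ᵐ ab : Fr, 0 < fdet ab → ∀ p ∈ S, AsL H p ab := by
    filter_upwards [h1] with ab h hd p hpS
    exact asL_of hp hd.ne' (h hd p hpS)
  have h3 := ae_swap h2
  filter_upwards [h2, h3, ae_det] with ab h4 h5 h6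
  refine ⟨h6, ?_⟩
  rcases lt_or_gt_of_ne h6 with h7 | h7
  · have e : fdet (ab.2, ab.1) = -fdet ab := by
      unfold fdet
      simp only
      ring
    exact fun p hpS => asL_swap (h5 (by rw [e]; linarith) p hpS)
  · exact h4 h7

/-- with the shift of the oval to a positive support function -/
theorem asL_main {H : ℝ → ℝ} (h2 : ContDiff ℝ 2 H) (hp : Function.Periodic H (2 * π)) (hr : ∀ t, 0 < H t + deriv (deriv H) t) {S : Set ℝ}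
    (h : ∀ v : ℝ × ℝ, IsSupp (shf H v) → ∀ᵐ f : Fr, 0 < fdet f → ∀ p ∈ S, As (Hf (shf H v) f) p) :
    ∀ᵐ ab : Fr, fdet ab ≠ 0 ∧ ∀ p ∈ S, AsL H p ab := by
  obtain ⟨v, hv⟩ := Pool.Agent.Helper22.OV.exists_shift h2 hp hr
  filter_upwards [asL_ae hv.per (h v hv)] with ab h1
  exact ⟨h1.1, fun p hpS => asL_shf v (h1.2 p hpS)⟩

end Pool.Agent.Helper64.LMA
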