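import Pool.Agent.Helper33.LMA.Low0

/-!
# Project LMA: the limit laws at all centres are not the mass at `0`: the Fourier coefficients
-/

open MeasureTheory Real Set Filter Topology

set_option autoImplicit false

namespace Pool.Agent.Helper64.LMA

open Pool.Agent.Helper22.AE
open Pool.Agent.Helper22.AC (cntc)
open Pool.Agent.Helper93.EX (Mx ak prim sn fJ)
open Pool.Agent.Helper33.LMA (mean_cos fq Ep ep_ok mu mu_int mean_path ak_nonneg)

/-- the mean of a product of two waves -/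
noncomputable def Wc (j μ' φ lam β : ℝ) : ℝ :=
  1 / 2 * (if j * μ' - lam = 0 then cos (2 * π * (j * φ) - 3 * π / 4 - β) else 0) +
    1 / 2 * (if j * μ' + lam = 0 then cos (2 * π * (j * φ) - 3 * π / 4 + β) else 0)

theorem mean_prodc (j μ' φ lam β : ℝ) : Tendsto (fun X : ℝ => X⁻¹ * ∫ R in Icc X (2 * X), cos (2 * π * (j * (R * μ' + φ)) - 3 * π / 4) *
    cos (2 * π * (R * lam) + β)) atTop (𝓝 (Wc j μ' φ lam β)) := by
  have h1 := ((mean_cos (j * μ' - lam) (2 * π * (j * φ) - 3 * π / 4 - β)).const_mul (1 / 2)).add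
    ((mean_cos (j * μ' + lam) (2 * π * (j * φ) - 3 * π / 4 + β)).const_mul (1 / 2))
  change Tendsto _ _ (𝓝 (Wc j μ' φ lam β)) at h1
  refine h1.congr fun X => ?_
  have i1 : IntegrableOn (fun R : ℝ => cos (2 * π * (R * (j * μ' - lam)) + (2 * π * (j * φ) - 3 * π / 4 - β))) (Icc X (2 * X)) := by
    refine Continuous.integrableOn_Icc ?_
    fun_prop
  have i2 : IntegrableOn (fun R : ℝ => cos (2 * π * (R * (j * μ' + lam)) + (2 * π * (j * φ) - 3 * π / 4 + β))) (Icc X (2 * X)) := by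
    refine Continuous.integrableOn_Icc ?_
    fun_prop
  have e2 : ∀ R : ℝ, cos (2 * π * (j * (R * μ' + φ)) - 3 * π / 4) * cos (2 * π * (R * lam) + β) =
      1 / 2 * cos (2 * π * (R * (j * μ' - lam)) + (2 * π * (j * φ) - 3 * π / 4 - β)) +
        1 / 2 * cos (2 * π * (R * (j * μ' + lam)) + (2 * π * (j * φ) - 3 * π / 4 + β)) := by
    intro R
    have h3 : 2 * π * (R * (j * μ' - lam)) + (2 * π * (j * φ) - 3 * π / 4 - β) =
        (2 * π * (j * (R * μ' + φ)) - 3 * π / 4) - (2 * π * (R * lam) + β) := by ring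
    have h4 : 2 * π * (R * (j * μ' + lam)) + (2 * π * (j * φ) - 3 * π / 4 + β) =
        (2 * π * (j * (R * μ' + φ)) - 3 * π / 4) + (2 * π * (R * lam) + β) := by ring
    have key : ∀ A B : ℝ, cos A * cos B = 1 / 2 * cos (A - B) + 1 / 2 * cos (A + B) := by
      intro A B
      rw [cos_sub, cos_add]
      ring
    rw [h3, h4]
    exact key _ _
  simp only [e2]
  rw [integral_add (i1.const_mul _) (i2.const_mul _), integral_const_mul, integral_const_mul]
  ring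

/-- the phase at the centre -/
def ph (a : ℝ × ℝ) (k : ℤ × ℤ) : ℝ := (k.1 : ℝ) * a.1 + (k.2 : ℝ) * a.2

theorem Mx_at (H : ℝ → ℝ) (N : ℕ) (a w : ℝ × ℝ) (R : ℝ) :
    Mx H N R (a.1 - R * w.1, a.2 - R * w.2) = ∑ k ∈ prim N, ak H k * (1 / π * ∑ j ∈ Finset.range ((N - 1) / sn k),
      ((j + 1 : ℕ) : ℝ) ^ (-(3 / 2) : ℝ) * cos (2 * π * (((j + 1 : ℕ) : ℝ) * (R * fq H w k + ph a k)) - 3 * π / 4)) := by
  unfold Mx
  refine Finset.sum_congr rfl fun k _ => ?_
  congr 1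
  unfold fJ
  congr 1
  refine Finset.sum_congr rfl fun j _ => ?_
  congr 3
  unfold fq ph
  ring

/-- one family -/
noncomputable def Sf (J : ℕ) (μ' φ lam β : ℝ) : ℝ :=
  ∑ j ∈ Finset.range J, ((j + 1 : ℕ) : ℝ) ^ (-(3 / 2) : ℝ) * Wc ((j + 1 : ℕ) : ℝ) μ' φ lam β

/-- the mean of the main sum against one wave -/
theorem mean_Mxc (H : ℝ → ℝ) (N : ℕ) (a w : ℝ × ℝ) (lam β : ℝ) :
    Tendsto (fun X : ℝ => X⁻¹ * ∫ R in Icc X (2 * X), Mx H N R (a.1 - R * w.1, a.2 - R * w.2) * cos (2 * π * (R * lam) + β)) atTop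
      (𝓝 (∑ k ∈ prim N, ak H k * (1 / π * Sf ((N - 1) / sn k) (fq H w k) (ph a k) lam β))) := by
  have h1 := tendsto_finsetSum (prim N) fun k (_ : k ∈ prim N) =>
    ((tendsto_finsetSum (Finset.range ((N - 1) / sn k)) fun j (_ : j ∈ Finset.range ((N - 1) / sn k)) =>
      (mean_prodc ((j + 1 : ℕ) : ℝ) (fq H w k) (ph a k) lam β).const_mul (((j + 1 : ℕ) : ℝ) ^ (-(3 / 2) : ℝ))).const_mul (1 / π)).const_mul (ak H k)
  refine h1.congr fun X => ?_
  have i1 : ∀ (k : ℤ × ℤ) (j : ℕ), IntegrableOn (fun R : ℝ => cos (2 * π * (((j + 1 : ℕ) : ℝ) * (R * fq H w k + ph a k)) - 3 * π / 4) *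
      cos (2 * π * (R * lam) + β)) (Icc X (2 * X)) := fun k j => by
    refine Continuous.integrableOn_Icc ?_
    fun_prop
  have e1 : ∀ R : ℝ, Mx H N R (a.1 - R * w.1, a.2 - R * w.2) * cos (2 * π * (R * lam) + β) =
      ∑ k ∈ prim N, ak H k * (1 / π * ∑ j ∈ Finset.range ((N - 1) / sn k),
        ((j + 1 : ℕ) : ℝ) ^ (-(3 / 2) : ℝ) * (cos (2 * π * (((j + 1 : ℕ) : ℝ) * (R * fq H w k + ph a k)) - 3 * π / 4) *
          cos (2 * π * (R * lam) + β))) := by
    intro R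
    rw [Mx_at, Finset.sum_mul]
    refine Finset.sum_congr rfl fun k _ => ?_
    rw [mul_assoc, mul_assoc, Finset.sum_mul]
    congr 2
    refine Finset.sum_congr rfl fun j _ => ?_
    ring
  simp only [e1]
  rw [integral_finsetSum _ fun k _ => ((integrable_finsetSum _ fun j _ => (i1 k j).const_mul _).const_mul _).const_mul _, Finset.mul_sum]
  refine Finset.sum_congr rfl fun k _ => ?_
  rw [integral_const_mul, integral_const_mul, integral_finsetSum _ fun j _ => (i1 k j).const_mul _]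
  have e3 : ∀ S : ℝ, X⁻¹ * (ak H k * (1 / π * S)) = ak H k * (1 / π * (X⁻¹ * S)) := fun S => by ring
  rw [e3]
  refine congrArg (fun z => ak H k * (1 / π * z)) ?_
  rw [Finset.mul_sum]
  refine Finset.sum_congr rfl fun j _ => ?_
  rw [integral_const_mul]
  ring

theorem Wc_zero {j μ' φ lam β : ℝ} (h1 : j * μ' ≠ lam) (h2 : j * μ' ≠ -lam) : Wc j μ' φ lam β = 0 := by
  unfold Wc
  rw [if_neg (sub_ne_zero.2 h1), if_neg (fun h => h2 (by linarith))]
  ring

theorem Sf_zero {J : ℕ} {μ' φ lam β : ℝ} (h : ∀ j : ℕ, 1 ≤ j → (j : ℝ) * μ' ≠ lam ∧ (j : ℝ) * μ' ≠ -lam) : Sf J μ' φ lam β = 0 := by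
  unfold Sf
  refine Finset.sum_eq_zero fun j _ => ?_
  rw [Wc_zero (h (j + 1) (by omega)).1 (h (j + 1) (by omega)).2, mul_zero]

/-- the hit of the frequency `lam` -/
theorem Sf_hit {J : ℕ} {μ' φ lam β : ℝ} (hl : 0 < lam) {q : ℕ} (hq : 1 ≤ q) (hqJ : q ≤ J) (h : (q : ℝ) * μ' = lam) :
    Sf J μ' φ lam β = (q : ℝ) ^ (-(3 / 2) : ℝ) * (1 / 2 * cos (2 * π * (q * φ) - 3 * π / 4 - β)) := by
  have hq0 : (0 : ℝ) < q := by exact_mod_cast hq
  have hμ : 0 < μ' := by
    by_contra hn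
    push Not at hn
    have := mul_nonpos_of_nonneg_of_nonpos hq0.le hn
    linarith
  unfold Sf
  rw [Finset.sum_eq_single (q - 1)]
  · have e : q - 1 + 1 = q := by omega
    rw [e]
    congr 1
    unfold Wc
    rw [if_pos (by rw [h, sub_self]), if_neg (by rw [h]; linarith)]
    ring
  · intro j _ hj
    rw [Wc_zero, mul_zero]
    · intro h2
      rw [← h] at h2
      have h3 := mul_right_cancel₀ hμ.ne' h2
      have h4 : j + 1 = q := by exact_mod_cast h3
      omega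
    · intro h2
      have h3 : 0 < ((j + 1 : ℕ) : ℝ) * μ' := by positivity
      linarith
  · intro h2
    exact absurd (Finset.mem_range.2 (by omega)) h2

/-- the hit of the frequency `-lam` -/
theorem Sf_hit' {J : ℕ} {μ' φ lam β : ℝ} (hl : 0 < lam) {q : ℕ} (hq : 1 ≤ q) (hqJ : q ≤ J) (h : (q : ℝ) * μ' = -lam) :
    Sf J μ' φ lam β = (q : ℝ) ^ (-(3 / 2) : ℝ) * (1 / 2 * cos (2 * π * (q * φ) - 3 * π / 4 + β)) := by
  have hq0 : (0 : ℝ) < q := by exact_mod_cast hq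
  have hμ : μ' < 0 := by
    by_contra hn
    push Not at hn
    have := mul_nonneg hq0.le hn
    linarith
  unfold Sf
  rw [Finset.sum_eq_single (q - 1)]
  · have e : q - 1 + 1 = q := by omega
    rw [e]
    congr 1
    unfold Wc
    rw [if_neg (by rw [h]; linarith), if_pos (by rw [h]; ring)]
    ring
  · intro j _ hj
    rw [Wc_zero, mul_zero]
    · intro h2
      have h3 : ((j + 1 : ℕ) : ℝ) * μ' < 0 := mul_neg_of_pos_of_neg (by positivity) hμ
      linarith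
    · intro h2
      rw [← h] at h2
      have h3 := mul_right_cancel₀ hμ.ne h2
      have h4 : j + 1 = q := by exact_mod_cast h3
      omega
  · intro h2
    exact absurd (Finset.mem_range.2 (by omega)) h2

/-- from a nonzero value to a positive value -/
theorem Wc_shift (j μ' φ lam β : ℝ) : Wc j μ' φ lam (β + π) = -Wc j μ' φ lam β := by
  unfold Wc
  have e1 : 2 * π * (j * φ) - 3 * π / 4 - (β + π) = 2 * π * (j * φ) - 3 * π / 4 - β - π := by ring
  have e2 : 2 * π * (j * φ) - 3 * π / 4 + (β + π) = 2 * π * (j * φ) - 3 * π / 4 + β + π := by ring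
  rw [e1, e2, cos_sub_pi, cos_add_pi]
  split_ifs <;> ring

theorem Sf_shift (J : ℕ) (μ' φ lam β : ℝ) : Sf J μ' φ lam (β + π) = -Sf J μ' φ lam β := by
  unfold Sf
  rw [← Finset.sum_neg_distrib]
  refine Finset.sum_congr rfl fun j _ => ?_
  rw [Wc_shift]
  ring

/-- two waves of positive amplitudes cannot cancel at `lam` and at `2 lam` -/
theorem two_waves {A B x y : ℝ} (hA : 0 < A) (hB : 0 < B) (h1 : A * cos x + B * cos y = 0) (h2 : A * sin x + B * sin y = 0) :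
    A = B ∧ cos (x - y) = -1 ∧ sin (x - y) = 0 := by
  have hAB : A = B := by
    have h3 : A ^ 2 = B ^ 2 := by
      have e1 : A * cos x = -(B * cos y) := by linarith
      have e2 : A * sin x = -(B * sin y) := by linarith
      have e3 : A ^ 2 * (cos x ^ 2 + sin x ^ 2) = B ^ 2 * (cos y ^ 2 + sin y ^ 2) := by
        calc A ^ 2 * (cos x ^ 2 + sin x ^ 2) = (A * cos x) ^ 2 + (A * sin x) ^ 2 := by ring
          _ = B ^ 2 * (cos y ^ 2 + sin y ^ 2) := by
            rw [e1, e2]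
            ring
      rwa [cos_sq_add_sin_sq, cos_sq_add_sin_sq, mul_one, mul_one] at e3
    exact (pow_left_inj₀ hA.le hB.le (by norm_num)).1 h3
  subst hAB
  have h3 : cos x = -cos y := by
    have h4 : A * (cos x + cos y) = 0 := by linarith
    have h5 := (mul_eq_zero.1 h4).resolve_left hA.ne'
    linarith
  have h4 : sin x = -sin y := by
    have h4 : A * (sin x + sin y) = 0 := by linarith
    have h5 := (mul_eq_zero.1 h4).resolve_left hA.ne'
    linarith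
  refine ⟨rfl, ?_, ?_⟩
  · rw [cos_sub, h3, h4]
    have := cos_sq_add_sin_sq y
    nlinarith
  · rw [sin_sub, h3, h4]
    ring

/-- the coefficient of the pair `v`, `-v` at the frequency `lam'` -/
noncomputable def Lw (A B : ℝ) (J : ℕ) (lam μ' θ θ' lam' β : ℝ) : ℝ := A * (1 / π * Sf J lam θ lam' β) + B * (1 / π * Sf J μ' θ' lam' β)

theorem Lw_shift (A B : ℝ) (J : ℕ) (lam μ' θ θ' lam' β : ℝ) : Lw A B J lam μ' θ θ' lam' (β + π) = -Lw A B J lam μ' θ θ' lam' β := by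
  unfold Lw
  rw [Sf_shift, Sf_shift]
  ring

theorem pos_of_ne {A B lam μ' θ θ' lam' β c : ℝ} {J₀ : ℕ} (hc : c ≠ 0) (h : ∀ J, J₀ ≤ J → Lw A B J lam μ' θ θ' lam' β = c) :
    ∃ β' κ : ℝ, 0 < κ ∧ ∀ J, J₀ ≤ J → Lw A B J lam μ' θ θ' lam' β' = κ := by
  rcases lt_or_gt_of_ne hc with h1 | h1
  · refine ⟨β + π, -c, by linarith, fun J hJ => ?_⟩
    rw [Lw_shift, h J hJ]
  · exact ⟨β, c, h1, h⟩

theorem cast_two_mul_rpow (q : ℕ) : ((2 * q : ℕ) : ℝ) ^ (-(3 / 2) : ℝ) = 2 ^ (-(3 / 2) : ℝ) * (q : ℝ) ^ (-(3 / 2) : ℝ) := by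
  push_cast
  rw [mul_rpow (by norm_num) (Nat.cast_nonneg q)]

/-- one of the two frequencies `lam`, `2 lam` has a coefficient which is not zero -/
theorem exists_wave {A B lam : ℝ} (hA : 0 < A) (hB : 0 < B) (hl : 0 < lam) (μ' θ θ' : ℝ) :
    ∃ m : ℕ, (m = 1 ∨ m = 2) ∧ ∃ (β κ : ℝ) (J₀ : ℕ), 0 < κ ∧ ∀ J, J₀ ≤ J → Lw A B J lam μ' θ θ' (m * lam) β = κ := by
  have hpi := Real.pi_pos
  have h2r : (0 : ℝ) < 2 ^ (-(3 / 2) : ℝ) := by positivity
  -- the values
  have f1 : ∀ (J : ℕ) (β : ℝ), 1 ≤ J → Sf J lam θ lam β = 1 / 2 * cos (2 * π * θ - 3 * π / 4 - β) := by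
    intro J β hJ
    rw [Sf_hit hl (q := 1) le_rfl hJ (by push_cast; ring)]
    rw [Nat.cast_one, one_rpow, one_mul, one_mul]
  have f2 : ∀ (J : ℕ) (β : ℝ), 2 ≤ J → Sf J lam θ (2 * lam) β = 2 ^ (-(3 / 2) : ℝ) * (1 / 2 * cos (2 * π * (2 * θ) - 3 * π / 4 - β)) := by
    intro J β hJ
    rw [Sf_hit (by linarith : 0 < 2 * lam) (q := 2) (by norm_num) hJ (by push_cast; ring)]
    push_cast
    ring
  by_cases ha : ∃ q : ℕ, 1 ≤ q ∧ (q : ℝ) * μ' = lam
  · obtain ⟨q, hq, hqm⟩ := ha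
    have hq0 : (0 : ℝ) < q := by exact_mod_cast hq
    obtain ⟨B', hB'⟩ : ∃ B' : ℝ, B' = B * (q : ℝ) ^ (-(3 / 2) : ℝ) := ⟨_, rfl⟩
    have hB'0 : 0 < B' := by
      rw [hB']
      positivity
    have g1 : ∀ (J : ℕ) (β : ℝ), q ≤ J → Sf J μ' θ' lam β = (q : ℝ) ^ (-(3 / 2) : ℝ) * (1 / 2 * cos (2 * π * (q * θ') - 3 * π / 4 - β)) := fun J β hJ =>
      Sf_hit hl hq hJ hqm
    have g2 : ∀ (J : ℕ) (β : ℝ), 2 * q ≤ J → Sf J μ' θ' (2 * lam) β =
        2 ^ (-(3 / 2) : ℝ) * (q : ℝ) ^ (-(3 / 2) : ℝ) * (1 / 2 * cos (2 * π * (2 * (q * θ')) - 3 * π / 4 - β)) := by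
      intro J β hJ
      rw [Sf_hit (by linarith : 0 < 2 * lam) (q := 2 * q) (by omega) hJ (by push_cast; rw [mul_assoc, hqm]), cast_two_mul_rpow]
      push_cast
      ring_nf
    obtain ⟨x, hx⟩ : ∃ x : ℝ, x = 2 * π * θ - 3 * π / 4 := ⟨_, rfl⟩
    obtain ⟨y, hy⟩ : ∃ y : ℝ, y = 2 * π * (q * θ') - 3 * π / 4 := ⟨_, rfl⟩
    have L1 : ∀ β J, 2 * q ≤ J → Lw A B J lam μ' θ θ' ((1 : ℕ) * lam) β = 1 / (2 * π) * (A * cos (x - β) + B' * cos (y - β)) := by
      intro β J hJ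
      unfold Lw
      rw [Nat.cast_one, one_mul, f1 J β (by omega), g1 J β (by omega), ← hx, ← hy, hB']
      field_simp
    have L2 : ∀ β J, 2 * q ≤ J → Lw A B J lam μ' θ θ' ((2 : ℕ) * lam) β =
        2 ^ (-(3 / 2) : ℝ) / (2 * π) * (A * cos (2 * x + 3 * π / 4 - β) + B' * cos (2 * y + 3 * π / 4 - β)) := by
      intro β J hJ
      unfold Lw
      have e1 : 2 * π * (2 * θ) - 3 * π / 4 - β = 2 * x + 3 * π / 4 - β := by
        rw [hx]
        ring
      have e2 : 2 * π * (2 * (q * θ')) - 3 * π / 4 - β = 2 * y + 3 * π / 4 - β := by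
        rw [hy]
        ring
      rw [Nat.cast_ofNat, f2 J β (by omega), g2 J β (by omega), e1, e2, hB']
      field_simp
    by_cases c1 : A * cos (x - 0) + B' * cos (y - 0) = 0
    · by_cases c2 : A * cos (x - π / 2) + B' * cos (y - π / 2) = 0
      · rw [sub_zero, sub_zero] at c1
        rw [cos_sub_pi_div_two, cos_sub_pi_div_two] at c2
        obtain ⟨hAB, t1, t2⟩ := two_waves hA hB'0 c1 c2
        by_cases c3 : A * cos (2 * x + 3 * π / 4 - 0) + B' * cos (2 * y + 3 * π / 4 - 0) = 0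
        · by_cases c4 : A * cos (2 * x + 3 * π / 4 - π / 2) + B' * cos (2 * y + 3 * π / 4 - π / 2) = 0
          · exfalso
            rw [sub_zero, sub_zero] at c3
            rw [cos_sub_pi_div_two, cos_sub_pi_div_two] at c4
            obtain ⟨-, t3, -⟩ := two_waves hA hB'0 c3 c4
            have e : 2 * x + 3 * π / 4 - (2 * y + 3 * π / 4) = 2 * (x - y) := by ring
            rw [e, cos_two_mul, t1] at t3
            norm_num at t3
          · obtain ⟨β, κ, h1, h2⟩ := pos_of_ne (mul_ne_zero (by positivity) c4) (L2 (π / 2))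
            exact ⟨2, Or.inr rfl, β, κ, _, h1, h2⟩
        · obtain ⟨β, κ, h1, h2⟩ := pos_of_ne (mul_ne_zero (by positivity) c3) (L2 0)
          exact ⟨2, Or.inr rfl, β, κ, _, h1, h2⟩
      · obtain ⟨β, κ, h1, h2⟩ := pos_of_ne (mul_ne_zero (by positivity) c2) (L1 (π / 2))
        exact ⟨1, Or.inl rfl, β, κ, _, h1, h2⟩
    · obtain ⟨β, κ, h1, h2⟩ := pos_of_ne (mul_ne_zero (by positivity) c1) (L1 0)
      exact ⟨1, Or.inl rfl, β, κ, _, h1, h2⟩
  · by_cases hb : ∃ q : ℕ, 1 ≤ q ∧ (q : ℝ) * μ' = -lam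
    · obtain ⟨q, hq, hqm⟩ := hb
      have hq0 : (0 : ℝ) < q := by exact_mod_cast hq
      obtain ⟨B', hB'⟩ : ∃ B' : ℝ, B' = B * (q : ℝ) ^ (-(3 / 2) : ℝ) := ⟨_, rfl⟩
      have hB'0 : 0 < B' := by
        rw [hB']
        positivity
      have g1 : ∀ (J : ℕ) (β : ℝ), q ≤ J → Sf J μ' θ' lam β = (q : ℝ) ^ (-(3 / 2) : ℝ) * (1 / 2 * cos (2 * π * (q * θ') - 3 * π / 4 + β)) := fun J β hJ =>
        Sf_hit' hl hq hJ hqm
      have g2 : ∀ (J : ℕ) (β : ℝ), 2 * q ≤ J → Sf J μ' θ' (2 * lam) β =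
          2 ^ (-(3 / 2) : ℝ) * (q : ℝ) ^ (-(3 / 2) : ℝ) * (1 / 2 * cos (2 * π * (2 * (q * θ')) - 3 * π / 4 + β)) := by
        intro J β hJ
        rw [Sf_hit' (by linarith : 0 < 2 * lam) (q := 2 * q) (by omega) hJ (by push_cast; rw [mul_assoc, hqm]; ring), cast_two_mul_rpow]
        push_cast
        ring_nf
      obtain ⟨x, hx⟩ : ∃ x : ℝ, x = 2 * π * θ - 3 * π / 4 := ⟨_, rfl⟩
      obtain ⟨y, hy⟩ : ∃ y : ℝ, y = -(2 * π * (q * θ') - 3 * π / 4) := ⟨_, rfl⟩
      have L1 : ∀ β J, 2 * q ≤ J → Lw A B J lam μ' θ θ' ((1 : ℕ) * lam) β = 1 / (2 * π) * (A * cos (x - β) + B' * cos (y - β)) := by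
        intro β J hJ
        unfold Lw
        have e1 : cos (2 * π * (q * θ') - 3 * π / 4 + β) = cos (y - β) := by
          rw [← cos_neg, hy]
          congr 1
          ring
        rw [Nat.cast_one, one_mul, f1 J β (by omega), g1 J β (by omega), ← hx, e1, hB']
        field_simp
      have L2 : ∀ β J, 2 * q ≤ J → Lw A B J lam μ' θ θ' ((2 : ℕ) * lam) β =
          2 ^ (-(3 / 2) : ℝ) / (2 * π) * (A * cos (2 * x + 3 * π / 4 - β) + B' * cos (2 * y - 3 * π / 4 - β)) := by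
        intro β J hJ
        unfold Lw
        have e1 : 2 * π * (2 * θ) - 3 * π / 4 - β = 2 * x + 3 * π / 4 - β := by
          rw [hx]
          ring
        have e2 : cos (2 * π * (2 * (q * θ')) - 3 * π / 4 + β) = cos (2 * y - 3 * π / 4 - β) := by
          rw [← cos_neg, hy]
          congr 1
          ring
        rw [Nat.cast_ofNat, f2 J β (by omega), g2 J β (by omega), e1, e2, hB']
        field_simp
      by_cases c1 : A * cos (x - 0) + B' * cos (y - 0) = 0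
      · by_cases c2 : A * cos (x - π / 2) + B' * cos (y - π / 2) = 0
        · rw [sub_zero, sub_zero] at c1
          rw [cos_sub_pi_div_two, cos_sub_pi_div_two] at c2
          obtain ⟨hAB, t1, t2⟩ := two_waves hA hB'0 c1 c2
          by_cases c3 : A * cos (2 * x + 3 * π / 4 - 0) + B' * cos (2 * y - 3 * π / 4 - 0) = 0
          · by_cases c4 : A * cos (2 * x + 3 * π / 4 - π / 2) + B' * cos (2 * y - 3 * π / 4 - π / 2) = 0
            · exfalso
              rw [sub_zero, sub_zero] at c3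
              rw [cos_sub_pi_div_two, cos_sub_pi_div_two] at c4
              obtain ⟨-, t3, -⟩ := two_waves hA hB'0 c3 c4
              have e : 2 * x + 3 * π / 4 - (2 * y - 3 * π / 4) = 2 * (x - y) + π / 2 + π := by ring
              rw [e, cos_add_pi, cos_add_pi_div_two, sin_two_mul, t2] at t3
              norm_num at t3
            · obtain ⟨β, κ, h1, h2⟩ := pos_of_ne (mul_ne_zero (by positivity) c4) (L2 (π / 2))
              exact ⟨2, Or.inr rfl, β, κ, _, h1, h2⟩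
          · obtain ⟨β, κ, h1, h2⟩ := pos_of_ne (mul_ne_zero (by positivity) c3) (L2 0)
            exact ⟨2, Or.inr rfl, β, κ, _, h1, h2⟩
        · obtain ⟨β, κ, h1, h2⟩ := pos_of_ne (mul_ne_zero (by positivity) c2) (L1 (π / 2))
          exact ⟨1, Or.inl rfl, β, κ, _, h1, h2⟩
      · obtain ⟨β, κ, h1, h2⟩ := pos_of_ne (mul_ne_zero (by positivity) c1) (L1 0)
        exact ⟨1, Or.inl rfl, β, κ, _, h1, h2⟩
    · push Not at ha hb
      refine ⟨1, Or.inl rfl, 2 * π * θ - 3 * π / 4, A / (2 * π), 1, by positivity, fun J hJ => ?_⟩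
      unfold Lw
      rw [Nat.cast_one, one_mul, f1 J _ hJ, Sf_zero fun j hj => ⟨ha j hj, hb j hj⟩, sub_self, cos_zero]
      field_simp
      ring

end Pool.Agent.Helper64.LMA
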