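import Pool.Agent.Helper64.LMA.LowC

/-!
# Project LMA: the limit laws at all centres are not the mass at `0`
-/

open MeasureTheory Real Set Filter Topology

set_option autoImplicit false

namespace Pool.Agent.Helper64.LMA

open Pool.Agent.Helper22.AE
open Pool.Agent.Helper22.AC (cntc)
open Pool.Agent.Helper22.OV (shf)
open Pool.Agent.Helper93.EX (Mx ak prim sn fJ)
open Pool.Agent.Helper33.LMA (mean_cos fq Ep ep_ok mu mu_int mean_path ak_nonneg Law LawU law_of_lawU lawP_blk err_dl_s lcnt_shf)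
open Pool.Agent.Helper92.LA (dl fdet_dl lcnt lcnt_eq lcnt_swap ae_dual ae_swap ae_det)
open Pool.Agent.Helper22.LP (Fr fdet Hf Hf_isSupp area_lin)

/-- the frequencies of `k` with `k.2 ≠ 0` do not meet those of `(±1, 0)` -/
def NR (H : ℝ → ℝ) (w : ℝ × ℝ) : Prop :=
  ∀ e : ℤ, (e = 1 ∨ e = -1) → 0 < fq H w (e, 0) → ∀ k : ℤ × ℤ, k.2 ≠ 0 → ∀ j m : ℕ, 1 ≤ j → 1 ≤ m →
    (j : ℝ) * fq H w k ≠ m * fq H w (e, 0) ∧ (j : ℝ) * fq H w k ≠ -(m * fq H w (e, 0))

theorem sum_prim {t : ℤ × ℤ → ℝ} {N : ℕ} (hN : 2 ≤ N) (h : ∀ k : ℤ × ℤ, k.2 ≠ 0 → t k = 0) : ∑ k ∈ prim N, t k = t (1, 0) + t (-1, 0) := by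
  classical
  have hne : ((1, 0) : ℤ × ℤ) ≠ (-1, 0) := by decide
  have hsub : ({(1, 0), (-1, 0)} : Finset (ℤ × ℤ)) ⊆ prim N := by
    intro k hk
    rw [Finset.mem_insert, Finset.mem_singleton] at hk
    unfold prim box sn
    rcases hk with rfl | rfl
    · simp only [Finset.mem_filter, Finset.mem_product, Finset.mem_Icc]
      refine ⟨⟨⟨?_, ?_⟩, ?_, ?_⟩, ?_, ?_⟩
      all_goals first | (simp; omega) | simp
    · simp only [Finset.mem_filter, Finset.mem_product, Finset.mem_Icc]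
      refine ⟨⟨⟨?_, ?_⟩, ?_, ?_⟩, ?_, ?_⟩
      all_goals first | (simp; omega) | simp
  rw [← Finset.sum_subset hsub, Finset.sum_pair hne]
  intro k hk hk2
  by_cases h0 : k.2 = 0
  · exfalso
    apply hk2
    have h1 : Int.gcd k.1 k.2 = 1 := ((Finset.mem_filter.1 hk).2).1
    rw [h0, Int.gcd_zero_right] at h1
    rw [Finset.mem_insert, Finset.mem_singleton]
    rcases Int.natAbs_eq k.1 with h2 | h2
    · left
      ext
      · rw [h2, h1]
        rfl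
      · exact h0
    · right
      ext
      · rw [h2, h1]
        rfl
      · exact h0
  · exact h k h0

theorem ak_pos' {H : ℝ → ℝ} (hr : ∀ θ, 0 < H θ + deriv (deriv H) θ) {e : ℤ} (he : e = 1 ∨ e = -1) : 0 < ak H (e, 0) := by
  unfold ak
  have h1 : 0 < nk (e, 0) := by
    unfold nk
    rw [norm_pos_iff]
    intro h
    have h2 := congrArg Complex.re h
    rcases he with rfl | rfl <;> simp [cz] at h2
  exact mul_pos (Real.rpow_pos_of_pos h1 _) (Real.sqrt_pos.2 (hr _))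

theorem fq_width {H : ℝ → ℝ} (hpos : ∀ t, 0 < H t) (w : ℝ × ℝ) : 0 < fq H w (1, 0) + fq H w (-1, 0) := by
  have h1 : ∀ e : ℤ, (e = 1 ∨ e = -1) → 0 < nk (e, 0) := by
    intro e he
    unfold nk
    rw [norm_pos_iff]
    intro h
    have h2 := congrArg Complex.re h
    rcases he with rfl | rfl <;> simp [cz] at h2
  have h2 := mul_pos (h1 1 (Or.inl rfl)) (hpos (tk (1, 0)))
  have h3 := mul_pos (h1 (-1) (Or.inr rfl)) (hpos (tk (-1, 0)))
  unfold fq
  push_cast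
  linarith

/-- a wave with a positive coefficient -/
theorem wave_of {H : ℝ → ℝ} (hpos : ∀ t, 0 < H t) (hr : ∀ θ, 0 < H θ + deriv (deriv H) θ) (a w : ℝ × ℝ) (hnr : NR H w) :
    ∃ (lam' β κ : ℝ) (N₀ : ℕ), 0 < κ ∧ ∀ N, N₀ ≤ N →
      ∑ k ∈ prim N, ak H k * (1 / π * Sf ((N - 1) / sn k) (fq H w k) (ph a k) lam' β) = κ := by
  have hw := fq_width hpos w
  have key : ∀ e : ℤ, (e = 1 ∨ e = -1) → 0 < fq H w (e, 0) → ∃ (lam' β κ : ℝ) (N₀ : ℕ), 0 < κ ∧ ∀ N, N₀ ≤ N →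
      ∑ k ∈ prim N, ak H k * (1 / π * Sf ((N - 1) / sn k) (fq H w k) (ph a k) lam' β) = κ := by
    intro e he hl
    have he' : -e = 1 ∨ -e = -1 := by omega
    obtain ⟨m, hm, β, κ, J₀, hκ, h⟩ := exists_wave (ak_pos' hr he) (ak_pos' hr he') hl (fq H w (-e, 0)) (ph a (e, 0)) (ph a (-e, 0))
    refine ⟨m * fq H w (e, 0), β, κ, J₀ + 2, hκ, fun N hN => ?_⟩
    have hm1 : 1 ≤ m := by omega
    rw [sum_prim (by omega) fun k hk => by
      rw [Sf_zero fun j hj => hnr e he hl k hk j m hj hm1, mul_zero, mul_zero]]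
    have s1 : sn (1, 0) = 1 := by
      unfold sn
      simp
    have s2 : sn (-1, 0) = 1 := by
      unfold sn
      simp
    rw [s1, s2, Nat.div_one, ← h (N - 1) (by omega)]
    unfold Lw
    rcases he with rfl | rfl
    · rfl
    · rw [add_comm]
      rfl
  by_cases h : 0 < fq H w (1, 0)
  · exact key 1 (Or.inl rfl) h
  · exact key (-1) (Or.inr rfl) (by linarith)

/-- the first absolute moment at every centre is bounded below -/
theorem epc_low {H : ℝ → ℝ} (hH : ContDiff ℝ 2 H) (hp : Function.Periodic H (2 * π)) (hpos : ∀ t, 0 < H t) (hr : ∀ θ, 0 < H θ + deriv (deriv H) θ)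
    (htail : ∀ (m0 : ℕ) (η : ℝ), 0 < η → ∃ (n0 : ℕ) (X₀ : ℝ), m0 ≤ n0 ∧ 1 ≤ X₀ ∧ ∀ X : ℝ, X₀ ≤ X → ∃ V : ℝ → ℝ, IntegrableOn V (Icc X (2 * X)) ∧
      (∀ R ∈ Icc X (2 * X), ∀ c : ℝ × ℝ, |cntc H c R - area H * R ^ 2 - sqrt R * Mx H (2 ^ n0) R c| ^ 2 ≤ V R) ∧ ∫ R in Icc X (2 * X), V R ≤ η * X ^ 2)
    (a w : ℝ × ℝ) (hnr : NR H w) : ∃ b : ℝ, 0 < b ∧ ∃ X₀ : ℝ, 1 ≤ X₀ ∧ ∀ X : ℝ, X₀ ≤ X → b ≤ mu (Ep H a w) (fun y => |y|) X := by
  have hO := ep_ok hH hp hr a w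
  obtain ⟨lam', β, κ, N₀, hκ0, hwave⟩ := wave_of hpos hr a w hnr
  obtain ⟨n0, X₁, hn0, hX₁, h1⟩ := htail N₀ (κ ^ 2 / 16) (by positivity)
  have hN : N₀ ≤ 2 ^ n0 := hn0.trans Nat.lt_two_pow_self.le
  have hlim := mean_Mxc H (2 ^ n0) a w lam' β
  rw [hwave _ hN] at hlim
  obtain ⟨X₂, hX₂⟩ := eventually_atTop.1 (hlim.eventually (lt_mem_nhds (by linarith : κ / 2 < κ)))
  refine ⟨κ / 4, by positivity, max X₁ X₂, hX₁.trans (le_max_left _ _), fun X hX => ?_⟩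
  have hXa : X₁ ≤ X := (le_max_left _ _).trans hX
  have hXb : X₂ ≤ X := (le_max_right _ _).trans hX
  have hX1 : 1 ≤ X := hX₁.trans hXa
  have hX0 : 0 < X := by linarith
  obtain ⟨V, v1, v2, v3⟩ := h1 X hXa
  have h2 := hX₂ X hXb
  obtain ⟨M, hM⟩ : ∃ M : ℝ → ℝ, M = fun R => Mx H (2 ^ n0) R (a.1 - R * w.1, a.2 - R * w.2) := ⟨_, rfl⟩
  have hMc : Continuous M := by
    rw [hM]
    exact (mean_path H (2 ^ n0) a w (φ := fun y => y) continuous_id).1
  obtain ⟨T, hT⟩ : ∃ T : ℝ → ℝ, T = fun R => cos (2 * π * (R * lam') + β) := ⟨_, rfl⟩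
  have hTc : Continuous T := by
    rw [hT]
    fun_prop
  have hT1 : ∀ R, |T R| ≤ 1 := fun R => by
    rw [hT]
    exact abs_cos_le_one _
  have h2' : κ / 2 < X⁻¹ * ∫ R in Icc X (2 * X), M R * T R := by
    rw [hM, hT]
    exact h2
  have iU : IntegrableOn (fun R => |Ep H a w R / sqrt R|) (Icc X (2 * X)) := mu_int hO hX1 (φ := fun y => |y|) continuous_abs
  have iMT : IntegrableOn (fun R => M R * T R) (Icc X (2 * X)) := (hMc.mul hTc).integrableOn_Icc
  have iV : IntegrableOn (fun R => κ / 8 + 2 / κ * (V R / X)) (Icc X (2 * X)) := by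
    have h3 : IntegrableOn (fun _ : ℝ => κ / 8) (Icc X (2 * X)) := continuousOn_const.integrableOn_compact isCompact_Icc
    exact h3.add ((v1.div_const X).const_mul _)
  -- the pointwise inequality
  have hpt : ∀ R ∈ Icc X (2 * X), M R * T R ≤ |Ep H a w R / sqrt R| + (κ / 8 + 2 / κ * (V R / X)) := by
    intro R hR
    have hR0 : 0 < R := by linarith [hR.1]
    have hs : 0 < sqrt R := Real.sqrt_pos.2 hR0
    obtain ⟨y, hy⟩ : ∃ y : ℝ, y = Ep H a w R / sqrt R := ⟨_, rfl⟩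
    have hV0 : 0 ≤ V R := (by positivity : (0 : ℝ) ≤ _).trans (v2 R hR (0, 0))
    have hq : |y - M R| ^ 2 ≤ V R / X := by
      have h4 : |y - M R| ^ 2 ≤ V R / R := by
        have e2 : y - M R = (cntc H (a.1 - R * w.1, a.2 - R * w.2) R - area H * R ^ 2 -
            sqrt R * Mx H (2 ^ n0) R (a.1 - R * w.1, a.2 - R * w.2)) / sqrt R := by
          rw [hy, hM]
          unfold Ep
          field_simp
        rw [e2, abs_div, div_pow, abs_of_pos hs, Real.sq_sqrt hR0.le]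
        exact div_le_div_of_nonneg_right (v2 R hR _) hR0.le
      exact h4.trans (div_le_div_of_nonneg_left hV0 hX0 hR.1)
    rw [← hy]
    have h3 : M R * T R ≤ |M R| := by
      have h4 := le_abs_self (M R * T R)
      rw [abs_mul] at h4
      exact h4.trans (mul_le_of_le_one_right (abs_nonneg _) (hT1 R))
    have h4 : |M R| ≤ |y| + |y - M R| := by
      have h5 := abs_sub_abs_le_abs_sub (M R) y
      rw [abs_sub_comm] at h5
      linarith
    have h5 : |y - M R| ≤ κ / 8 + 2 / κ * |y - M R| ^ 2 := by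
      obtain ⟨z, hz⟩ : ∃ z : ℝ, z = |y - M R| := ⟨_, rfl⟩
      rw [← hz]
      have h6 : κ / 8 + 2 / κ * z ^ 2 - z = 2 / κ * (z - κ / 4) ^ 2 := by
        field_simp
        ring
      have h7 : 0 ≤ 2 / κ * (z - κ / 4) ^ 2 := by positivity
      linarith
    have h6 : 2 / κ * |y - M R| ^ 2 ≤ 2 / κ * (V R / X) := mul_le_mul_of_nonneg_left hq (by positivity)
    linarith
  have h3 : ∫ R in Icc X (2 * X), M R * T R ≤ (∫ R in Icc X (2 * X), |Ep H a w R / sqrt R|) + ∫ R in Icc X (2 * X), (κ / 8 + 2 / κ * (V R / X)) := by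
    rw [← integral_add iU iV]
    exact setIntegral_mono_on iMT (iU.add iV) measurableSet_Icc hpt
  have h4 : ∫ R in Icc X (2 * X), (κ / 8 + 2 / κ * (V R / X)) ≤ κ / 4 * X := by
    have hconst : IntegrableOn (fun _ : ℝ => κ / 8) (Icc X (2 * X)) := continuousOn_const.integrableOn_compact isCompact_Icc
    have e7 : ∫ R in Icc X (2 * X), V R / X = (∫ R in Icc X (2 * X), V R) / X := integral_div _ _
    rw [integral_add hconst ((v1.div_const X).const_mul _), integral_const_mul, e7, setIntegral_const,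
      Real.volume_real_Icc_of_le (by linarith), smul_eq_mul]
    have h5 : 2 / κ * ((∫ R in Icc X (2 * X), V R) / X) ≤ 2 / κ * (κ ^ 2 / 16 * X ^ 2 / X) :=
      mul_le_mul_of_nonneg_left (div_le_div_of_nonneg_right v3 hX0.le) (by positivity)
    have h6 : 2 / κ * (κ ^ 2 / 16 * X ^ 2 / X) = κ / 8 * X := by
      field_simp
      norm_num
    linarith
  unfold mu
  have h5 : X⁻¹ * ∫ R in Icc X (2 * X), M R * T R ≤ X⁻¹ * ((∫ R in Icc X (2 * X), |Ep H a w R / sqrt R|) + κ / 4 * X) :=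
    mul_le_mul_of_nonneg_left (h3.trans (by linarith)) (inv_pos.2 hX0).le
  have h6 : X⁻¹ * ((∫ R in Icc X (2 * X), |Ep H a w R / sqrt R|) + κ / 4 * X) =
      X⁻¹ * (∫ R in Icc X (2 * X), |Ep H a w R / sqrt R|) + κ / 4 := by
    field_simp
  linarith

/-- almost every lattice: the law at every centre is not the mass at `0` -/
theorem lawC1_of {H : ℝ → ℝ} (h2 : ContDiff ℝ 2 H) (hp : Function.Periodic H (2 * π)) (hr : ∀ t, 0 < H t + deriv (deriv H) t) {q P : ℝ} (hq : 2 ≤ q)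
    (hqP : q < P) (hnr : ∀ v : ℝ × ℝ, IsSupp (shf H v) → ∀ᵐ f : Fr, 0 < fdet f →
      NR (Hf (shf H v) f) (f.1.1 * v.1 + f.1.2 * v.2, f.2.1 * v.1 + f.2.2 * v.2))
    (h : ∀ v : ℝ × ℝ, IsSupp (shf H v) → ∀ᵐ f : Fr, 0 < fdet f → BlkAll (Hf (shf H v) f) q P) :
    ∀ᵐ ab : Fr, fdet ab ≠ 0 ∧ ∀ c : ℝ × ℝ, Law (fun R => lcnt ab H c R - area H * R ^ 2 / abs (fdet ab)) P := by
  obtain ⟨v, hv⟩ := Pool.Agent.Helper22.OV.exists_shift h2 hp hr
  have h1 := ae_dual (h v hv)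
  have h1' := ae_dual (hnr v hv)
  have h3 : ∀ᵐ ab : Fr, 0 < fdet ab → ∀ c : ℝ × ℝ, Law (fun R => lcnt ab H c R - area H * R ^ 2 / abs (fdet ab)) P := by
    filter_upwards [h1, h1'] with ab h4 h4' hd c
    have hdl : fdet (dl ab) ≠ 0 := by
      rw [fdet_dl hd.ne']
      positivity
    obtain ⟨w, hw⟩ : ∃ w : ℝ × ℝ, w = ((dl ab).1.1 * v.1 + (dl ab).1.2 * v.2, (dl ab).2.1 * v.1 + (dl ab).2.2 * v.2) := ⟨_, rfl⟩
    obtain ⟨a, ha⟩ : ∃ a : ℝ × ℝ, a = ((dl ab).1.1 * c.1 + (dl ab).1.2 * c.2, (dl ab).2.1 * c.1 + (dl ab).2.2 * c.2) := ⟨_, rfl⟩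
    have hS := Hf_isSupp hv hdl
    have h5 := lawP_blk hS hq hqP (h4 hd) a w
    obtain ⟨e0, he0, he⟩ := (h4 hd) q le_rfl hqP
    have hN := h4' hd
    rw [← hw] at hN
    obtain ⟨b, hb, X₀, -, hlow⟩ := epc_low hS.smooth hS.per hS.pos hS.rho_pos
      (fun m0 => Pool.Agent.Helper60.LMA.htail_ge hS hq (lt_min he0 (by norm_num : (0 : ℝ) < 1 / 8)) (min_le_right _ _)
        (he _ (lt_min he0 (by norm_num)) (min_le_left _ _)) m0) a w hN
    have e : (fun R => lcnt ab H c R - area H * R ^ 2 / abs (fdet ab)) = Ep (Hf (shf H v) (dl ab)) a w := by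
      funext R
      rw [← lcnt_shf H ab v c R, ← Pool.Agent.Helper22.OV.area_shf (H := H) v, err_dl_s hv.per hd.ne']
      unfold Ep
      rw [hw, ha]
      congr 3 <;> ring
    rw [e]
    exact law_of_lawU (by linarith) h5 hb hlow
  have h4 := ae_swap h3
  filter_upwards [h3, h4, ae_det] with ab h5 h6 h7
  refine ⟨h7, fun c => ?_⟩
  rcases lt_or_gt_of_ne h7 with h8 | h8
  · have e : fdet (ab.2, ab.1) = -fdet ab := by
      unfold fdet
      simp only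
      ring
    have h9 := h6 (by rw [e]; linarith) c
    have e2 : (fun R => lcnt ab H c R - area H * R ^ 2 / abs (fdet ab)) =
        fun R => lcnt (ab.2, ab.1) H c R - area H * R ^ 2 / abs (fdet (ab.2, ab.1)) := by
      funext R
      rw [e, abs_neg, lcnt_swap]
    rw [e2]
    exact h9
  · exact h5 h8 c

end Pool.Agent.Helper64.LMA
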