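import Pool.Agent.Helper64.LMA.LowC2
import Pool.Agent.Helper64.LMA.End
import Pool.Agent.Helper27.LX.Nr

/-!
# Project LMA: nonresonance of almost every frame; the limit laws at all centres, for almost every lattice
-/

open MeasureTheory Real Set Filter Topology

set_option autoImplicit false

namespace Pool.Agent.Helper64.LMA

open Pool.Agent.Helper22.AE
open Pool.Agent.Helper22.OV (shf)
open Pool.Agent.Helper33.LMA (fq Law)
open Pool.Agent.Helper75.TW (AffPos AffOk afn)
open Pool.Agent.Helper92.LA (lcnt)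
open Pool.Agent.Helper22.LP (Fr fdet fv fk nr tr cp hom Hf Hf_isSupp)

/-- the frequencies along the path are the values of the support function at the vectors of the dual lattice -/
theorem fq_eq {H : ℝ → ℝ} {f : Fr} (v : ℝ × ℝ) {k : ℤ × ℤ} (hk : k ≠ 0) :
    fq (Hf (shf H v) f) (f.1.1 * v.1 + f.1.2 * v.2, f.2.1 * v.1 + f.2.2 * v.2) k = hom H (fk f k) := by
  have c1 : nk k * cos (tk k) = k.1 := Complex.norm_mul_cos_arg (cz k)
  have c2 : nk k * sin (tk k) = k.2 := Complex.norm_mul_sin_arg (cz k)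
  have hn : 0 < nk k := by
    unfold nk
    rw [norm_pos_iff]
    intro h
    have h1 := congrArg Complex.re h
    have h2 := congrArg Complex.im h
    simp only [cz, Complex.zero_re, Complex.zero_im] at h1 h2
    exact hk (Prod.ext (by exact_mod_cast h1) (by exact_mod_cast h2))
  have e1 : nk k * Hf (shf H v) f (tk k) = hom (shf H v) (fk f k) := by
    unfold Hf
    rw [← Pool.Agent.Helper92.LA.hom_smul (shf H v) hn]
    congr 1
    unfold fk fv
    simp only
    rw [← c1, ← c2]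
    ext <;> simp only <;> ring
  have e2 : hom (shf H v) (fk f k) = hom H (fk f k) + ((fk f k).1 * v.1 + (fk f k).2 * v.2) := by
    have d1 : nr (fk f k) * cos (tr (fk f k)) = (fk f k).1 := Complex.norm_mul_cos_arg (cp (fk f k))
    have d2 : nr (fk f k) * sin (tr (fk f k)) = (fk f k).2 := Complex.norm_mul_sin_arg (cp (fk f k))
    unfold hom shf
    rw [mul_add, mul_add, ← mul_assoc, ← mul_assoc, mul_comm (nr (fk f k)) v.1, mul_comm (nr (fk f k)) v.2, mul_assoc v.1, mul_assoc v.2, d1, d2]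
    ring
  unfold fq
  rw [e1, e2]
  unfold fk fv
  simp only
  ring

/-- almost every frame -/
theorem nr_ae {H : ℝ → ℝ} (h2 : ContDiff ℝ 2 H) (v : ℝ × ℝ) (_hv : IsSupp (shf H v)) :
    ∀ᵐ f : Fr, 0 < fdet f → NR (Hf (shf H v) f) (f.1.1 * v.1 + f.1.2 * v.2, f.2.1 * v.1 + f.2.2 * v.2) := by
  filter_upwards [Pool.Agent.Helper27.LX.nr_hom h2.continuous.measurable] with f hf hdet
  intro e he hpos k hk j m hj hm
  have hk0 : k ≠ 0 := fun h => hk (by rw [h]; rfl)
  have he0 : ((e, 0) : ℤ × ℤ) ≠ 0 := fun h => by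
    have h1 := congrArg Prod.fst h
    simp only [Prod.fst_zero] at h1
    omega
  rw [fq_eq v he0] at hpos
  rw [fq_eq v hk0, fq_eq v he0]
  have he' : ((e, 0) : ℤ × ℤ) = (1, 0) ∨ ((e, 0) : ℤ × ℤ) = (-1, 0) := by
    rcases he with rfl | rfl
    · exact Or.inl rfl
    · exact Or.inr rfl
  have h1 := hf (e, 0) he' hpos.ne' k hk j m hj hm 1 (Or.inl rfl)
  have h2 := hf (e, 0) he' hpos.ne' k hk j m hj hm (-1) (Or.inr rfl)
  refine ⟨fun h => h1 (by rw [h]; ring), fun h => h2 (by rw [h]; ring)⟩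

/-- the laws at all centres are not degenerate, every oval of class `C⁵` -/
theorem lawC_12 {H : ℝ → ℝ} (h5 : ContDiff ℝ 5 H) (hp : Function.Periodic H (2 * π)) (hr : ∀ t, 0 < H t + deriv (deriv H) t) :
    ∀ᵐ ab : Fr, fdet ab ≠ 0 ∧ ∀ c : ℝ × ℝ, Law (fun R => lcnt ab H c R - area H * R ^ 2 / abs (fdet ab)) 20 :=
  lawC1_of (h5.of_le (by norm_num)) hp hr (q := 12) (P := 20) (by norm_num) (by norm_num) (nr_ae (h5.of_le (by norm_num))) (blkAll_12 h5)

/-- ovals with positive affine curvature -/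
theorem lawC_aff {H : ℝ → ℝ} (h6 : ContDiff ℝ 6 H) (hp : Function.Periodic H (2 * π)) (hr : ∀ t, 0 < H t + deriv (deriv H) t) (ha : AffPos H) :
    ∀ᵐ ab : Fr, fdet ab ≠ 0 ∧ ∀ c : ℝ × ℝ, Law (fun R => lcnt ab H c R - area H * R ^ 2 / abs (fdet ab)) 36 :=
  lawC1_of (h6.of_le (by norm_num)) hp hr (q := 20) (P := 36) (by norm_num) (by norm_num) (nr_ae (h6.of_le (by norm_num))) (blkAll_aff h6 ha)

/-- ovals whose affine curvature has no multiple zero -/
theorem lawC_gen {H : ℝ → ℝ} (h7 : ContDiff ℝ 7 H) (hp : Function.Periodic H (2 * π)) (hr : ∀ t, 0 < H t + deriv (deriv H) t) (ha : AffOk H) :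
    ∀ᵐ ab : Fr, fdet ab ≠ 0 ∧ ∀ c : ℝ × ℝ, Law (fun R => lcnt ab H c R - area H * R ^ 2 / abs (fdet ab)) 36 :=
  lawC1_of (h7.of_le (by norm_num)) hp hr (q := 20) (P := 36) (by norm_num) (by norm_num) (nr_ae (h7.of_le (by norm_num))) (blkAll_gen h7 ha)

end Pool.Agent.Helper64.LMA
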