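import Pool.Agent.Helper75.LM.Blk

/-!
# Project LMA: the moments of small frequencies without `X ^ ε`

`WJ J H α₀ p n f ≤ C (2 ^ n) ^ e * 2 ^ p * (2 ^ n) ^ q` for all `p` with `2 ^ n ≤ (2 ^ p) ^ μ`: for `p` large against `n` the moment over `[X / 4, 8 X]` is at most
`X / Y` times the moment over `[-2 Y, 2 Y]`, `Y = 2 ^ (b n)` (positive-definite domination), and the kernels `k0 β` concentrate at `α = 0`.
-/

open MeasureTheory Real Set Filter Topology Metric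

set_option autoImplicit false

namespace Pool.Agent.Helper64.LMA

open Pool.Agent.Helper22.AE
open Pool.Agent.Helper22.AC (cntc ga)
open Pool.Agent.Helper22.OV (o3_k0_cont o3_k0_nonneg card_sqa_o3)
open Pool.Agent.Helper92.GC (dt tp sqa Tq)
open Pool.Agent.Helper92.DT (m12)
open Pool.Agent.Helper75.TW (m20 J20)
open Pool.Agent.Helper75.GD (WJ beta_pos75)
open Pool.Agent.Helper75.LM (Md d20 d12 mass20)
open Pool.Agent.Helper92.LA (JJ)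
open Pool.Agent.Helper22.LP (Fr fv fk fdet nr tr nr_eq hom)

/-- what is used of a moment: domination, dyadic pieces, comparison -/
structure Mq (md J : Fr → (ℝ × ℝ → ℝ) → ℝ → ℕ → ℝ) (q : ℕ) : Prop where
  cov : ∀ (f : Fr) (h : ℝ × ℝ → ℝ) (N : ℕ), 1 ≤ N → ∀ X Y : ℝ, 1 ≤ Y → Y ≤ X → J f h X N ≤ 10 * (X / Y) * ∫ r in Icc (-(2 * Y)) (2 * Y), md f h r N
  dya : ∀ (f : Fr) (h : ℝ × ℝ → ℝ) (N : ℕ), 1 ≤ N → ∀ i y : ℕ, i ≤ y → ∫ r in Icc (-(2 * (2 : ℝ) ^ y)) (2 * 2 ^ y), md f h r N ≤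
    2 * (2 ^ i * (16 * (N : ℝ) ^ 2) ^ q + ∑ j ∈ Finset.Icc i y, J f h (2 ^ j) N)
  cmp : ∀ (f : Fr) (h h' : ℝ × ℝ → ℝ) (N : ℕ) (r : ℝ), (∑ k ∈ sqa N, ‖ee (r * h (fk f k)) - ee (r * h' (fk f k))‖ ≤ 1) →
    md f h r N ≤ 2 ^ q * (md f h' r N + 1)

/-- the size of the small frequencies without `X ^ ε` -/
def WS (J : Fr → (ℝ × ℝ → ℝ) → ℝ → ℕ → ℝ) (H : ℝ → ℝ) (α₀ μ : ℝ) (q : ℕ) (f : Fr) : Prop :=
  ∀ e : ℝ, 0 < e → ∃ C : ℝ, 0 ≤ C ∧ ∀ p n : ℕ, n ≤ p → (2 : ℝ) ^ n ≤ ((2 : ℝ) ^ p) ^ μ →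
    WJ J H α₀ p n f ≤ C * (((2 : ℝ) ^ n) ^ e * (2 ^ p * (2 ^ n) ^ q))

theorem sum_two (i y : ℕ) : ∑ j ∈ Finset.Icc i y, (2 : ℝ) ^ j ≤ 2 * 2 ^ y := by
  have h1 : ∑ j ∈ Finset.Icc i y, (2 : ℝ) ^ j ≤ ∑ j ∈ Finset.range (y + 1), (2 : ℝ) ^ j := by
    refine Finset.sum_le_sum_of_subset_of_nonneg (fun j hj => ?_) fun j _ _ => by positivity
    rw [Finset.mem_range]
    have := (Finset.mem_Icc.1 hj).2
    omega
  refine h1.trans ?_
  rw [geom_sum_eq (by norm_num), pow_succ]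
  have : (0 : ℝ) < 2 ^ y := by positivity
  rw [div_le_iff₀ (by norm_num)]
  linarith

theorem sum_dy {C e N : ℝ} (hC : 0 ≤ C) (he : 0 ≤ e) (hN : 0 ≤ N) {i y : ℕ} {u : ℕ → ℝ}
    (hu : ∀ j ∈ Finset.Icc i y, u j ≤ C * (((2 : ℝ) ^ j) ^ e * (2 ^ j * N))) : ∑ j ∈ Finset.Icc i y, u j ≤ 2 * C * (((2 : ℝ) ^ y) ^ e * (2 ^ y * N)) := by
  have h1 : ∀ j ∈ Finset.Icc i y, u j ≤ C * ((2 : ℝ) ^ y) ^ e * N * 2 ^ j := by
    intro j hj
    refine (hu j hj).trans ?_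
    have h2 : ((2 : ℝ) ^ j) ^ e ≤ ((2 : ℝ) ^ y) ^ e :=
      rpow_le_rpow (by positivity) (pow_le_pow_right₀ (by norm_num) (Finset.mem_Icc.1 hj).2) he
    calc C * (((2 : ℝ) ^ j) ^ e * (2 ^ j * N)) ≤ C * (((2 : ℝ) ^ y) ^ e * (2 ^ j * N)) :=
          mul_le_mul_of_nonneg_left (mul_le_mul_of_nonneg_right h2 (by positivity)) hC
      _ = _ := by ring
  refine (Finset.sum_le_sum h1).trans ?_
  rw [← Finset.mul_sum]
  calc C * ((2 : ℝ) ^ y) ^ e * N * ∑ j ∈ Finset.Icc i y, (2 : ℝ) ^ j ≤ C * ((2 : ℝ) ^ y) ^ e * N * (2 * 2 ^ y) :=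
        mul_le_mul_of_nonneg_left (sum_two i y) (by positivity)
    _ = _ := by ring

/-- the kernel away from `0` -/
theorem k0_far {β δ α : ℝ} (hβ : 0 < β) (hδ : 0 < δ) (hβδ : β ≤ δ ^ 2) (hα : δ ≤ |α|) (hα2 : |α| ≤ π / 2) : k0 β α ≤ 3 := by
  have hpi := Real.pi_pos
  have hpi2 := Real.pi_lt_d2
  have h1 := Real.mul_abs_le_abs_sin hα2
  have h2 : 2 / π * δ ≤ |sin α| := (mul_le_mul_of_nonneg_left hα (by positivity)).trans h1
  have h3 : (2 / π * δ) ^ 2 ≤ sin α ^ 2 := by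
    rw [← sq_abs (sin α)]
    exact pow_le_pow_left₀ (by positivity) h2 2
  have h4 : δ ^ 2 / 3 ≤ (2 / π * δ) ^ 2 := by
    have : 1 / 3 ≤ (2 / π) ^ 2 := by
      rw [div_pow, div_le_div_iff₀ (by norm_num) (by positivity)]
      nlinarith
    calc δ ^ 2 / 3 = 1 / 3 * δ ^ 2 := by ring
      _ ≤ (2 / π) ^ 2 * δ ^ 2 := mul_le_mul_of_nonneg_right this (by positivity)
      _ = _ := by ring
  unfold k0
  rw [div_le_iff₀ (by positivity)]
  have h5 : 0 ≤ β ^ 2 := by positivity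
  linarith

/-- the kernel against a function which is nearly constant at `0` -/
theorem int_k0 {α₀ β δ A : ℝ} (h0 : 0 < α₀) (h1 : α₀ < π / 2) (hβ : 0 < β) (hδ : 0 < δ) (hβδ : β ≤ δ ^ 2) {Γ : ℝ → ℝ} (hΓ : Continuous Γ)
    (hΓ0 : ∀ α, 0 ≤ Γ α) (hA : 0 ≤ A) (hnear : ∀ α, |α| ≤ δ → Γ α ≤ A) :
    ∫ α in Icc (-α₀) α₀, k0 β α * Γ α ≤ 20 * A + 3 * ∫ α in Icc (-α₀) α₀, Γ α := by
  have hk := o3_k0_cont hβ
  have hpt : ∀ α ∈ Icc (-α₀) α₀, k0 β α * Γ α ≤ k0 β α * A + 3 * Γ α := by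
    intro α hα
    have hk0 := o3_k0_nonneg hβ α
    rcases le_total |α| δ with h | h
    · have := mul_le_mul_of_nonneg_left (hnear α h) hk0
      have := hΓ0 α
      linarith
    · have h2 : |α| ≤ π / 2 := (abs_le.2 hα).trans h1.le
      have h3 := mul_le_mul_of_nonneg_right (k0_far hβ hδ hβδ h h2) (hΓ0 α)
      have h4 := mul_nonneg hk0 hA
      linarith
  have hi : ∀ g : ℝ → ℝ, Continuous g → IntegrableOn g (Icc (-α₀) α₀) := fun g hg => hg.continuousOn.integrableOn_compact isCompact_Icc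
  calc ∫ α in Icc (-α₀) α₀, k0 β α * Γ α ≤ ∫ α in Icc (-α₀) α₀, (k0 β α * A + 3 * Γ α) :=
        setIntegral_mono_on (hi _ (hk.mul hΓ)) (hi _ ((hk.mul continuous_const).add (continuous_const.mul hΓ))) measurableSet_Icc hpt
    _ = (∫ α in Icc (-α₀) α₀, k0 β α) * A + 3 * ∫ α in Icc (-α₀) α₀, Γ α := by
        have i1 : IntegrableOn (fun α => k0 β α * A) (Icc (-α₀) α₀) := hi _ (hk.mul continuous_const)
        have i2 : IntegrableOn (fun α => 3 * Γ α) (Icc (-α₀) α₀) := hi _ (continuous_const.mul hΓ)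
        rw [integral_add i1 i2, integral_mul_const, integral_const_mul]
    _ ≤ 20 * A + 3 * ∫ α in Icc (-α₀) α₀, Γ α := by
        have := mul_le_mul_of_nonneg_right (mass20 h0 h1 hβ) hA
        linarith

/-- the lengths of the frequencies -/
theorem nr_fk {f : Fr} {N : ℕ} {k : ℤ × ℤ} (hk : k ∈ sqa N) : nr (fk f k) ≤ 2 * N * (|f.1.1| + |f.1.2| + |f.2.1| + |f.2.2|) := by
  have h1 := (Finset.mem_filter.1 hk).2
  have h2 : |(k.1 : ℝ)| ≤ 2 * N := by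
    have := h1.2.1.le
    have h3 : ((|k.1| : ℤ) : ℝ) ≤ ((2 * N : ℤ) : ℝ) := by exact_mod_cast this
    push_cast at h3
    exact h3
  have h4 : |(k.2 : ℝ)| ≤ 2 * N := by
    have := h1.2.2.le
    have h3 : ((|k.2| : ℤ) : ℝ) ≤ ((2 * N : ℤ) : ℝ) := by exact_mod_cast this
    push_cast at h3
    exact h3
  have h5 : ∀ v : ℝ × ℝ, nr v ≤ |v.1| + |v.2| := by
    intro v
    rw [nr_eq]
    apply Real.sqrt_le_iff.2
    refine ⟨by positivity, ?_⟩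
    have := abs_nonneg v.1
    have := abs_nonneg v.2
    rw [← sq_abs v.1, ← sq_abs v.2]
    nlinarith
  have hN : (0 : ℝ) ≤ 2 * N := by positivity
  have h6 : ∀ x y a b : ℝ, |x| ≤ 2 * N → |y| ≤ 2 * N → |x * a + y * b| ≤ 2 * N * (|a| + |b|) := by
    intro x y a b hx hy
    calc |x * a + y * b| ≤ |x * a| + |y * b| := abs_add_le _ _
      _ = |x| * |a| + |y| * |b| := by rw [abs_mul, abs_mul]
      _ ≤ 2 * N * |a| + 2 * N * |b| := add_le_add (mul_le_mul_of_nonneg_right hx (abs_nonneg _)) (mul_le_mul_of_nonneg_right hy (abs_nonneg _))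
      _ = _ := by ring
  refine (h5 _).trans ?_
  have h7 := h6 k.1 k.2 f.1.1 f.2.1 h2 h4
  have h8 := h6 k.1 k.2 f.1.2 f.2.2 h2 h4
  have e1 : (fk f k).1 = k.1 * f.1.1 + k.2 * f.2.1 := rfl
  have e2 : (fk f k).2 = k.1 * f.1.2 + k.2 * f.2.2 := rfl
  rw [e1, e2]
  linarith

theorem ee_lip64 (x y : ℝ) : ‖ee x - ee y‖ ≤ 7 * |x - y| := by
  have h1 : ee x - ee y = ee y * (ee (x - y) - 1) := by
    rw [mul_sub, ← ee_add, mul_one]
    congr 2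
    ring
  rw [h1, norm_mul, ee_norm, one_mul]
  unfold ee
  have h2 := Complex.norm_exp_I_mul_ofReal_sub_one (2 * Real.pi * (x - y))
  rw [show Complex.I * ((2 * Real.pi * (x - y) : ℝ) : ℂ) = ((2 * Real.pi * (x - y) : ℝ) : ℂ) * Complex.I by ring] at h2
  rw [h2, norm_mul, Real.norm_eq_abs, Real.norm_eq_abs, abs_two]
  have h3 : |Real.sin (2 * Real.pi * (x - y) / 2)| ≤ |2 * Real.pi * (x - y) / 2| := Real.abs_sin_le_abs
  have h4 : |2 * Real.pi * (x - y) / 2| = Real.pi * |x - y| := by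
    rw [show 2 * Real.pi * (x - y) / 2 = Real.pi * (x - y) by ring, abs_mul, abs_of_pos Real.pi_pos]
  rw [h4] at h3
  have h5 := Real.pi_lt_d2
  have h6 := abs_nonneg (x - y)
  nlinarith

/-- the comparison of the phases for small `α` -/
theorem near_sum {H : ℝ → ℝ} {L : ℝ} (hL0 : 0 ≤ L) (hL : ∀ α t, |ga H α t - ga H 0 t| ≤ L * |α|) {f : Fr} {N : ℕ} {Y α r : ℝ} (hr : |r| ≤ 2 * Y)
    (hα : 448 * (|f.1.1| + |f.1.2| + |f.2.1| + |f.2.2|) * L * (Y * (N : ℝ) ^ 3) * |α| ≤ 1) :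
    ∑ k ∈ sqa N, ‖ee (r * hom (ga H α) (fk f k)) - ee (r * hom (ga H 0) (fk f k))‖ ≤ 1 := by
  set S : ℝ := |f.1.1| + |f.1.2| + |f.2.1| + |f.2.2| with hS
  have hS0 : 0 ≤ S := by positivity
  have hY : 0 ≤ 2 * Y := (abs_nonneg r).trans hr
  have hY0 : 0 ≤ Y := by linarith
  have hN : (0 : ℝ) ≤ 2 * N := by positivity
  have h1 : ∀ k ∈ sqa N, ‖ee (r * hom (ga H α) (fk f k)) - ee (r * hom (ga H 0) (fk f k))‖ ≤ 28 * S * L * (Y * N) * |α| := by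
    intro k hk
    have h2 := ee_lip64 (r * hom (ga H α) (fk f k)) (r * hom (ga H 0) (fk f k))
    have h3 : |r * hom (ga H α) (fk f k) - r * hom (ga H 0) (fk f k)| ≤ 2 * Y * (2 * N * S * (L * |α|)) := by
      have e : r * hom (ga H α) (fk f k) - r * hom (ga H 0) (fk f k) =
          r * (nr (fk f k) * (ga H α (tr (fk f k)) - ga H 0 (tr (fk f k)))) := by
        unfold hom
        ring
      have h4 : 0 ≤ nr (fk f k) := norm_nonneg _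
      rw [e, abs_mul, abs_mul, abs_of_nonneg h4]
      refine mul_le_mul hr ?_ (by positivity) hY
      exact mul_le_mul (nr_fk hk) (hL _ _) (abs_nonneg _) (by positivity)
    calc _ ≤ 7 * |r * hom (ga H α) (fk f k) - r * hom (ga H 0) (fk f k)| := h2
      _ ≤ 7 * (2 * Y * (2 * N * S * (L * |α|))) := mul_le_mul_of_nonneg_left h3 (by norm_num)
      _ = _ := by ring
  refine (Finset.sum_le_sum h1).trans ?_
  rw [Finset.sum_const, nsmul_eq_mul]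
  calc ((sqa N).card : ℝ) * (28 * S * L * (Y * N) * |α|) ≤ 16 * (N : ℝ) ^ 2 * (28 * S * L * (Y * N) * |α|) :=
        mul_le_mul_of_nonneg_right (card_sqa_o3 N) (by positivity)
    _ = 448 * S * L * (Y * (N : ℝ) ^ 3) * |α| := by ring
    _ ≤ 1 := hα

section

variable {md J : Fr → (ℝ × ℝ → ℝ) → ℝ → ℕ → ℝ} {q : ℕ}

theorem cont_md (hd : Md md J q) {h : ℝ → ℝ × ℝ → ℝ} (hjc : Continuous fun q : ℝ × (ℝ × ℝ) => h q.1 q.2) (f : Fr) (N : ℕ) (Y : ℝ) :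
    Continuous fun α => ∫ r in Icc (-Y) Y, md f (h α) r N :=
  continuous_parametric_integral_of_continuous (f := fun (α r : ℝ) => md f (h α) r N) (hd.cont f h hjc N) isCompact_Icc

theorem cont_J (hd : Md md J q) {h : ℝ → ℝ × ℝ → ℝ} (hjc : Continuous fun q : ℝ × (ℝ × ℝ) => h q.1 q.2) (f : Fr) (X : ℝ) (N : ℕ) :
    Continuous fun α => J f (h α) X N := by
  have e : (fun α => J f (h α) X N) = fun α => ∫ r in Icc (X / 4) (8 * X), md f (h α) r N := by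
    funext α
    rw [hd.eq]
  rw [e]
  exact continuous_parametric_integral_of_continuous (f := fun (α r : ℝ) => md f (h α) r N) (hd.cont f h hjc N) isCompact_Icc

/-- the dyadic pieces, summed -/
theorem dya_bd (hM : Mq md J q) {f : Fr} {n B b : ℕ} (hb : b = B + q) {y : ℕ} (hy : y = b * n) {e C : ℝ} (he : 0 ≤ e) (hC : 0 ≤ C) (h : ℝ × ℝ → ℝ)
    {T : ℝ} (hT : ∑ j ∈ Finset.Icc (B * n) y, J f h (2 ^ j) (2 ^ n) ≤ T) :
    ∫ r in Icc (-(2 * (2 : ℝ) ^ y)) (2 * 2 ^ y), md f h r (2 ^ n) ≤ 2 * (16 ^ q * (2 ^ y * (2 ^ n) ^ q)) + 2 * T := by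
  have hN : 1 ≤ 2 ^ n := Nat.one_le_two_pow
  have h1 := hM.dya f h (2 ^ n) hN (B * n) y (by rw [hy, hb]; exact Nat.mul_le_mul_right n (Nat.le_add_right B q))
  have h2 : (2 : ℝ) ^ (B * n) * (16 * (((2 ^ n : ℕ) : ℝ)) ^ 2) ^ q = 16 ^ q * (2 ^ y * (2 ^ n) ^ q) := by
    push_cast
    rw [mul_pow, hy, hb, ← pow_mul, ← pow_mul, ← pow_mul]
    have e1 : (2 : ℝ) ^ ((B + q) * n) = 2 ^ (B * n) * 2 ^ (q * n) := by
      rw [← pow_add]
      congr 1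
      ring
    have e2 : (2 : ℝ) ^ (n * (2 * q)) = 2 ^ (q * n) * 2 ^ (n * q) := by
      rw [← pow_add]
      congr 1
      ring
    rw [e1, e2]
    ring
  rw [h2] at h1
  linarith

/-- the small frequencies without `X ^ ε` -/
theorem ws_of (hd : Md md J q) (hM : Mq md J q) {H : ℝ → ℝ} (hjc : Continuous fun q : ℝ × (ℝ × ℝ) => hom (ga H q.1) q.2) {L : ℝ}
    (hL : ∀ α t, |ga H α t - ga H 0 t| ≤ L * |α|) {α₀ : ℝ} (ha0 : 0 < α₀) (ha1 : α₀ < π / 2) {f : Fr} {μ : ℝ} {B : ℕ} (hB : 1 ≤ μ * B) (hB1 : 1 ≤ B)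
    (h1 : ∀ e : ℝ, 0 < e → ∃ C : ℝ, 0 ≤ C ∧ ∀ p n : ℕ, n ≤ p → (2 : ℝ) ^ n ≤ ((2 : ℝ) ^ p) ^ μ →
      WJ J H α₀ p n f ≤ C * (((2 : ℝ) ^ p) ^ e * (2 ^ p * (2 ^ n) ^ q)))
    (h2 : ∀ e : ℝ, 0 < e → ∃ C : ℝ, 0 ≤ C ∧ ∀ p n : ℕ, n ≤ p → (2 : ℝ) ^ n ≤ ((2 : ℝ) ^ p) ^ μ →
      J f (hom (ga H 0)) (2 ^ p) (2 ^ n) ≤ C * (((2 : ℝ) ^ p) ^ e * (2 ^ p * (2 ^ n) ^ q)))
    (h3 : ∀ e : ℝ, 0 < e → ∃ C : ℝ, 0 ≤ C ∧ ∀ p n : ℕ, n ≤ p → (2 : ℝ) ^ n ≤ ((2 : ℝ) ^ p) ^ μ →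
      ∫ α in Icc (-α₀) α₀, J f (hom (ga H α)) (2 ^ p) (2 ^ n) ≤ C * (((2 : ℝ) ^ p) ^ e * (2 ^ p * (2 ^ n) ^ q))) : WS J H α₀ μ q f := by
  intro e he
  have hpi := Real.pi_pos
  have hpi4 := Real.pi_lt_four
  have hμ : 0 < μ := by
    by_contra hn
    push Not at hn
    have := mul_nonpos_of_nonpos_of_nonneg hn (Nat.cast_nonneg (α := ℝ) B)
    linarith
  obtain ⟨b, hb⟩ : ∃ b : ℕ, b = B + q := ⟨_, rfl⟩
  have hb1 : 1 ≤ b := by omega
  obtain ⟨b2, hb2⟩ : ∃ b2 : ℕ, b2 = 4 * b + 12 := ⟨_, rfl⟩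
  have hbr : (0 : ℝ) < b := by exact_mod_cast hb1
  have hb2r : (0 : ℝ) < b2 := by
    rw [hb2]
    positivity
  obtain ⟨C₁, hC₁, h1⟩ := h1 (e / b2) (by positivity)
  obtain ⟨C₂, hC₂, h2⟩ := h2 (e / b) (by positivity)
  obtain ⟨C₃, hC₃, h3⟩ := h3 (e / b) (by positivity)
  have hL0 : 0 ≤ |L| := abs_nonneg L
  have hL' : ∀ α t, |ga H α t - ga H 0 t| ≤ |L| * |α| := fun α t => (hL α t).trans (mul_le_mul_of_nonneg_right (le_abs_self L) (abs_nonneg _))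
  obtain ⟨K, hK⟩ : ∃ K : ℝ, K = 448 * (|f.1.1| + |f.1.2| + |f.2.1| + |f.2.2|) * |L| + 1 := ⟨_, rfl⟩
  have hK1 : 1 ≤ K := by
    rw [hK]
    have : 0 ≤ 448 * (|f.1.1| + |f.1.2| + |f.2.1| + |f.2.2|) * |L| := by positivity
    linarith
  have hK0 : 0 < K := by linarith
  obtain ⟨k, hk⟩ : ∃ k : ℕ, K ^ 4 ≤ 2 ^ k := pow_unbounded_of_one_lt (K ^ 4) (by norm_num : (1 : ℝ) < 2) |>.imp fun _ h => h.le
  -- the two constants
  obtain ⟨CA, hCA⟩ : ∃ CA : ℝ, CA = C₁ * ((2 : ℝ) ^ k) ^ (e / b2) := ⟨_, rfl⟩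
  obtain ⟨CB, hCB⟩ : ∃ CB : ℝ, CB = 10 * (20 * (2 ^ q * ((2 * 16 ^ q + 4 * C₂) + 4)) + 3 * (8 * 16 ^ q + 4 * C₃)) := ⟨_, rfl⟩
  have hCA0 : 0 ≤ CA := by
    rw [hCA]
    positivity
  have hCB0 : 0 ≤ CB := by
    rw [hCB]
    positivity
  refine ⟨CA + CB, by linarith, fun p n hnp hn => ?_⟩
  have hR : 0 ≤ ((2 : ℝ) ^ n) ^ e * (2 ^ p * (2 ^ n) ^ q) := by positivity
  rcases lt_or_ge p (k + b2 * n) with hp | hp
  · -- small `p`
    refine (h1 p n hnp hn).trans ?_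
    have e1 : ((2 : ℝ) ^ p) ^ (e / b2) ≤ ((2 : ℝ) ^ k) ^ (e / b2) * ((2 : ℝ) ^ n) ^ e := by
      have e2 : (((2 : ℝ) ^ n) ^ b2) ^ (e / b2) = ((2 : ℝ) ^ n) ^ e := by
        rw [← rpow_natCast ((2 : ℝ) ^ n) b2, ← rpow_mul (by positivity)]
        congr 1
        field_simp
      rw [← e2, ← mul_rpow (by positivity) (by positivity)]
      refine rpow_le_rpow (by positivity) ?_ (by positivity)
      rw [← pow_mul, ← pow_add, mul_comm n b2]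
      exact pow_le_pow_right₀ (by norm_num) hp.le
    calc C₁ * (((2 : ℝ) ^ p) ^ (e / b2) * (2 ^ p * (2 ^ n) ^ q)) ≤ C₁ * ((((2 : ℝ) ^ k) ^ (e / b2) * ((2 : ℝ) ^ n) ^ e) * (2 ^ p * (2 ^ n) ^ q)) :=
          mul_le_mul_of_nonneg_left (mul_le_mul_of_nonneg_right e1 (by positivity)) hC₁
      _ = CA * (((2 : ℝ) ^ n) ^ e * (2 ^ p * (2 ^ n) ^ q)) := by
          rw [hCA]
          ring
      _ ≤ _ := mul_le_mul_of_nonneg_right (by linarith) hR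
  · -- large `p`
    obtain ⟨y, hy⟩ : ∃ y : ℕ, y = b * n := ⟨_, rfl⟩
    have hyp : y ≤ p := by
      have : b * n ≤ b2 * n := Nat.mul_le_mul_right n (by omega)
      omega
    have hY1 : (1 : ℝ) ≤ 2 ^ y := one_le_pow₀ (by norm_num)
    have hY0 : (0 : ℝ) < 2 ^ y := by positivity
    have hye : ((2 : ℝ) ^ y) ^ (e / b) = ((2 : ℝ) ^ n) ^ e := by
      rw [hy, mul_comm b n, pow_mul, ← rpow_natCast ((2 : ℝ) ^ n) b, ← rpow_mul (by positivity)]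
      congr 1
      field_simp
    obtain ⟨Γ, hΓ⟩ : ∃ Γ : ℝ → ℝ, Γ = fun α => ∫ r in Icc (-(2 * (2 : ℝ) ^ y)) (2 * 2 ^ y), md f (hom (ga H α)) r (2 ^ n) := ⟨_, rfl⟩
    have hΓc : Continuous Γ := by
      rw [hΓ]
      exact cont_md hd (h := fun α => hom (ga H α)) hjc f (2 ^ n) _
    have hΓ0 : ∀ α, 0 ≤ Γ α := fun α => by
      rw [hΓ]
      exact integral_nonneg fun r => hd.nonneg _ _ _ _
    -- admissible scales
    have hadm : ∀ j ∈ Finset.Icc (B * n) y, n ≤ j ∧ (2 : ℝ) ^ n ≤ ((2 : ℝ) ^ j) ^ μ := by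
      intro j hj
      have hj1 := (Finset.mem_Icc.1 hj).1
      have hn1 : n ≤ B * n := Nat.le_mul_of_pos_left n hB1
      refine ⟨hn1.trans hj1, ?_⟩
      rw [← rpow_natCast (2 : ℝ) j, ← rpow_mul (by norm_num), ← rpow_natCast (2 : ℝ) n]
      refine rpow_le_rpow_of_exponent_le (by norm_num) ?_
      have hj2 : ((B * n : ℕ) : ℝ) ≤ j := by exact_mod_cast hj1
      push_cast at hj2
      calc (n : ℝ) = 1 * n := by ring
        _ ≤ (μ * B) * n := mul_le_mul_of_nonneg_right hB (Nat.cast_nonneg n)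
        _ = (B * n : ℝ) * μ := by ring
        _ ≤ j * μ := mul_le_mul_of_nonneg_right hj2 hμ.le
    have hNq : (0 : ℝ) ≤ (2 ^ n) ^ q := by positivity
    -- the value at `0`
    have hG0 : Γ 0 ≤ (2 * 16 ^ q + 4 * C₂) * (((2 : ℝ) ^ n) ^ e * (2 ^ y * (2 ^ n) ^ q)) := by
      have s1 := sum_dy (i := B * n) (y := y) (u := fun j => J f (hom (ga H 0)) (2 ^ j) (2 ^ n)) hC₂ (show 0 ≤ e / b by positivity) hNq
        (fun j hj => h2 j n (hadm j hj).1 (hadm j hj).2)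
      rw [hye] at s1
      have s2 := dya_bd hM (f := f) (n := n) hb hy (e := e) (C := C₂) he.le hC₂ (hom (ga H 0)) s1
      have s3 : (1 : ℝ) ≤ ((2 : ℝ) ^ n) ^ e := one_le_rpow (one_le_pow₀ (by norm_num)) he.le
      have s4 : (16 : ℝ) ^ q * (2 ^ y * (2 ^ n) ^ q) ≤ 16 ^ q * (((2 : ℝ) ^ n) ^ e * (2 ^ y * (2 ^ n) ^ q)) := by
        refine mul_le_mul_of_nonneg_left ?_ (by positivity)
        exact le_mul_of_one_le_left (by positivity) s3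
      rw [hΓ]
      simp only
      linarith
    -- the mean
    have hG1 : ∫ α in Icc (-α₀) α₀, Γ α ≤ (8 * 16 ^ q + 4 * C₃) * (((2 : ℝ) ^ n) ^ e * (2 ^ y * (2 ^ n) ^ q)) := by
      have hi : ∀ j : ℕ, IntegrableOn (fun α => J f (hom (ga H α)) (2 ^ j) (2 ^ n)) (Icc (-α₀) α₀) := fun j =>
        (cont_J hd (h := fun α => hom (ga H α)) hjc f (2 ^ j) (2 ^ n)).continuousOn.integrableOn_compact isCompact_Icc
      have s1 := sum_dy (i := B * n) (y := y) (u := fun j => ∫ α in Icc (-α₀) α₀, J f (hom (ga H α)) (2 ^ j) (2 ^ n)) hC₃ (show 0 ≤ e / b by positivity) hNq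
        (fun j hj => h3 j n (hadm j hj).1 (hadm j hj).2)
      rw [hye, ← integral_finsetSum _ fun j _ => hi j] at s1
      have s2 : ∀ α, Γ α ≤ 2 * (16 ^ q * (2 ^ y * (2 ^ n) ^ q)) + 2 * ∑ j ∈ Finset.Icc (B * n) y, J f (hom (ga H α)) (2 ^ j) (2 ^ n) := by
        intro α
        rw [hΓ]
        exact dya_bd hM (f := f) (n := n) hb hy (e := e) (C := C₂) he.le hC₂ (hom (ga H α)) le_rfl
      have hi2 : IntegrableOn (fun α => ∑ j ∈ Finset.Icc (B * n) y, J f (hom (ga H α)) (2 ^ j) (2 ^ n)) (Icc (-α₀) α₀) :=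
        integrable_finsetSum _ fun j _ => hi j
      have hvol : (volume : Measure ℝ).real (Icc (-α₀) α₀) ≤ 4 := by
        rw [Real.volume_real_Icc_of_le (by linarith)]
        linarith
      have s3 : ∫ α in Icc (-α₀) α₀, Γ α ≤ ∫ α in Icc (-α₀) α₀, (2 * (16 ^ q * (2 ^ y * (2 ^ n) ^ q)) +
          2 * ∑ j ∈ Finset.Icc (B * n) y, J f (hom (ga H α)) (2 ^ j) (2 ^ n)) := by
        refine setIntegral_mono_on (hΓc.continuousOn.integrableOn_compact isCompact_Icc) ?_ measurableSet_Icc fun α _ => s2 α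
        exact (continuous_const.continuousOn.integrableOn_compact isCompact_Icc).add (hi2.const_mul 2)
      have i1 : IntegrableOn (fun _ : ℝ => 2 * ((16 : ℝ) ^ q * (2 ^ y * (2 ^ n) ^ q))) (Icc (-α₀) α₀) :=
        continuous_const.continuousOn.integrableOn_compact isCompact_Icc
      have i2 : IntegrableOn (fun α => 2 * ∑ j ∈ Finset.Icc (B * n) y, J f (hom (ga H α)) (2 ^ j) (2 ^ n)) (Icc (-α₀) α₀) := hi2.const_mul 2
      have i3 : ∫ _α in Icc (-α₀) α₀, (2 * ((16 : ℝ) ^ q * (2 ^ y * (2 ^ n) ^ q))) =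
          (volume : Measure ℝ).real (Icc (-α₀) α₀) * (2 * ((16 : ℝ) ^ q * (2 ^ y * (2 ^ n) ^ q))) := by
        rw [setIntegral_const, smul_eq_mul]
      have i4 : ∫ α in Icc (-α₀) α₀, 2 * ∑ j ∈ Finset.Icc (B * n) y, J f (hom (ga H α)) (2 ^ j) (2 ^ n) =
          2 * ∫ α in Icc (-α₀) α₀, ∑ j ∈ Finset.Icc (B * n) y, J f (hom (ga H α)) (2 ^ j) (2 ^ n) := integral_const_mul _ _
      rw [integral_add i1 i2, i3, i4] at s3
      have s4 : (volume : Measure ℝ).real (Icc (-α₀) α₀) * (2 * ((16 : ℝ) ^ q * (2 ^ y * (2 ^ n) ^ q))) ≤ 4 * (2 * ((16 : ℝ) ^ q * (2 ^ y * (2 ^ n) ^ q))) :=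
        mul_le_mul_of_nonneg_right hvol (by positivity)
      have s5 : (1 : ℝ) ≤ ((2 : ℝ) ^ n) ^ e := one_le_rpow (one_le_pow₀ (by norm_num)) he.le
      have s6 : (16 : ℝ) ^ q * (2 ^ y * (2 ^ n) ^ q) ≤ 16 ^ q * (((2 : ℝ) ^ n) ^ e * (2 ^ y * (2 ^ n) ^ q)) := by
        refine mul_le_mul_of_nonneg_left ?_ (by positivity)
        exact le_mul_of_one_le_left (by positivity) s5
      linarith
    -- near `0`
    obtain ⟨δ, hδ⟩ : ∃ δ : ℝ, δ = 1 / (K * (2 ^ y * (2 ^ n) ^ 3)) := ⟨_, rfl⟩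
    have hδ0 : 0 < δ := by
      rw [hδ]
      positivity
    have hnear : ∀ α, |α| ≤ δ → Γ α ≤ 2 ^ q * (Γ 0 + 4 * 2 ^ y) := by
      intro α hα
      have hsum : ∀ r ∈ Icc (-(2 * (2 : ℝ) ^ y)) (2 * 2 ^ y), md f (hom (ga H α)) r (2 ^ n) ≤ 2 ^ q * (md f (hom (ga H 0)) r (2 ^ n) + 1) := by
        intro r hr
        refine hM.cmp _ _ _ _ _ (near_sum hL0 hL' (Y := 2 ^ y) (abs_le.2 hr) ?_)
        have t1 : 448 * (|f.1.1| + |f.1.2| + |f.2.1| + |f.2.2|) * |L| ≤ K := by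
          rw [hK]
          linarith
        have t2 : K * (2 ^ y * (2 ^ n) ^ 3) * δ = 1 := by
          rw [hδ]
          field_simp
        push_cast
        calc 448 * (|f.1.1| + |f.1.2| + |f.2.1| + |f.2.2|) * |L| * (2 ^ y * (2 ^ n) ^ 3) * |α|
            ≤ K * (2 ^ y * (2 ^ n) ^ 3) * δ := by
              refine mul_le_mul (mul_le_mul_of_nonneg_right t1 (by positivity)) hα (abs_nonneg _) (by positivity)
          _ = 1 := t2
      have hc1 : ∀ α : ℝ, Continuous fun r => md f (hom (ga H α)) r (2 ^ n) := fun α =>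
        (hd.cont f (fun α => hom (ga H α)) hjc (2 ^ n)).comp (continuous_const.prodMk continuous_id)
      have hi1 : ∀ α : ℝ, IntegrableOn (fun r => md f (hom (ga H α)) r (2 ^ n)) (Icc (-(2 * (2 : ℝ) ^ y)) (2 * 2 ^ y)) := fun α =>
        (hc1 α).continuousOn.integrableOn_compact isCompact_Icc
      have hi3 : IntegrableOn (fun _ : ℝ => (1 : ℝ)) (Icc (-(2 * (2 : ℝ) ^ y)) (2 * 2 ^ y)) :=
        continuous_const.continuousOn.integrableOn_compact isCompact_Icc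
      have hi4 : IntegrableOn (fun r => md f (hom (ga H 0)) r (2 ^ n) + 1) (Icc (-(2 * (2 : ℝ) ^ y)) (2 * 2 ^ y)) := (hi1 0).add hi3
      rw [hΓ]
      simp only
      calc ∫ r in Icc (-(2 * (2 : ℝ) ^ y)) (2 * 2 ^ y), md f (hom (ga H α)) r (2 ^ n)
          ≤ ∫ r in Icc (-(2 * (2 : ℝ) ^ y)) (2 * 2 ^ y), 2 ^ q * (md f (hom (ga H 0)) r (2 ^ n) + 1) :=
            setIntegral_mono_on (hi1 α) (hi4.const_mul _) measurableSet_Icc hsum
        _ = 2 ^ q * ((∫ r in Icc (-(2 * (2 : ℝ) ^ y)) (2 * 2 ^ y), md f (hom (ga H 0)) r (2 ^ n)) + 4 * 2 ^ y) := by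
            rw [integral_const_mul, integral_add (hi1 0) hi3, setIntegral_const, smul_eq_mul, mul_one, Real.volume_real_Icc_of_le (by linarith)]
            ring
    have hβ := beta_pos75 p n
    have hβδ : 1 / sqrt ((2 : ℝ) ^ p * ((2 ^ n : ℕ) : ℝ)) ≤ δ ^ 2 := by
      have t1 : (K ^ 2 * ((2 ^ y) ^ 2 * (2 ^ n) ^ 6)) ≤ sqrt ((2 : ℝ) ^ p * ((2 ^ n : ℕ) : ℝ)) := by
        apply Real.le_sqrt_of_sq_le
        push_cast
        have t2 : (2 : ℝ) ^ p ≤ 2 ^ p * 2 ^ n := le_mul_of_one_le_right (by positivity) (one_le_pow₀ (by norm_num))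
        refine le_trans ?_ t2
        have t3 : (2 : ℝ) ^ (k + b2 * n) ≤ 2 ^ p := pow_le_pow_right₀ (by norm_num) hp
        refine le_trans ?_ t3
        calc (K ^ 2 * (((2 : ℝ) ^ y) ^ 2 * (2 ^ n) ^ 6)) ^ 2 = K ^ 4 * 2 ^ (b2 * n) := by
              have t4 : (2 : ℝ) ^ (b2 * n) = (((2 : ℝ) ^ y) ^ 2 * (2 ^ n) ^ 6) ^ 2 := by
                rw [hb2, hy, mul_pow, ← pow_mul, ← pow_mul, ← pow_mul, ← pow_mul, ← pow_add]
                congr 1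
                ring
              rw [t4]
              ring
          _ ≤ 2 ^ k * 2 ^ (b2 * n) := mul_le_mul_of_nonneg_right hk (by positivity)
          _ = 2 ^ (k + b2 * n) := (pow_add _ _ _).symm
      have t5 : δ ^ 2 = 1 / (K ^ 2 * ((2 ^ y) ^ 2 * (2 ^ n) ^ 6)) := by
        rw [hδ]
        field_simp
      rw [t5]
      exact one_div_le_one_div_of_le (by positivity) t1
    have hmain := int_k0 ha0 ha1 hβ hδ0 hβδ hΓc hΓ0 (show 0 ≤ 2 ^ q * (Γ 0 + 4 * 2 ^ y) by have := hΓ0 0; positivity) hnear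
    have hcov : WJ J H α₀ p n f ≤ 10 * (2 ^ p / 2 ^ y) * ∫ α in Icc (-α₀) α₀, k0 (1 / sqrt ((2 : ℝ) ^ p * ((2 ^ n : ℕ) : ℝ))) α * Γ α := by
      unfold WJ
      rw [← integral_const_mul]
      have hkc := o3_k0_cont hβ
      refine setIntegral_mono_on ?_ ?_ measurableSet_Icc fun α _ => ?_
      · exact (hkc.mul (cont_J hd (h := fun α => hom (ga H α)) hjc f (2 ^ p) (2 ^ n))).continuousOn.integrableOn_compact isCompact_Icc
      · exact (continuous_const.mul (hkc.mul hΓc)).continuousOn.integrableOn_compact isCompact_Icc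
      · have s1 := hM.cov f (hom (ga H α)) (2 ^ n) Nat.one_le_two_pow (2 ^ p) (2 ^ y) hY1 (pow_le_pow_right₀ (by norm_num) hyp)
        have s2 := mul_le_mul_of_nonneg_left s1 (o3_k0_nonneg hβ α)
        refine s2.trans (le_of_eq ?_)
        rw [hΓ]
        ring
    have s3 : (1 : ℝ) ≤ ((2 : ℝ) ^ n) ^ e := one_le_rpow (one_le_pow₀ (by norm_num)) he.le
    have s4 : (1 : ℝ) ≤ (2 ^ n) ^ q := one_le_pow₀ (one_le_pow₀ (by norm_num))
    have s5 : (2 : ℝ) ^ y ≤ ((2 : ℝ) ^ n) ^ e * (2 ^ y * (2 ^ n) ^ q) := by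
      calc (2 : ℝ) ^ y ≤ 2 ^ y * (2 ^ n) ^ q := le_mul_of_one_le_right hY0.le s4
        _ ≤ _ := le_mul_of_one_le_left (by positivity) s3
    obtain ⟨W, hW⟩ : ∃ W : ℝ, W = ((2 : ℝ) ^ n) ^ e * (2 ^ y * (2 ^ n) ^ q) := ⟨_, rfl⟩
    rw [← hW] at s5 hG0 hG1
    have hW0 : 0 ≤ W := by
      rw [hW]
      positivity
    have hfin : ∫ α in Icc (-α₀) α₀, k0 (1 / sqrt ((2 : ℝ) ^ p * ((2 ^ n : ℕ) : ℝ))) α * Γ α ≤ CB / 10 * W := by
      refine hmain.trans ?_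
      have u1 : 2 ^ q * (Γ 0 + 4 * 2 ^ y) ≤ 2 ^ q * (((2 * 16 ^ q + 4 * C₂) + 4) * W) := by
        refine mul_le_mul_of_nonneg_left ?_ (by positivity)
        linarith
      rw [hCB]
      linarith
    calc WJ J H α₀ p n f ≤ 10 * (2 ^ p / 2 ^ y) * (CB / 10 * W) := hcov.trans (mul_le_mul_of_nonneg_left hfin (by positivity))
      _ = CB * (((2 : ℝ) ^ n) ^ e * (2 ^ p * (2 ^ n) ^ q)) := by
          rw [hW]
          field_simp
      _ ≤ _ := mul_le_mul_of_nonneg_right (by linarith) hR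

end

end Pool.Agent.Helper64.LMA
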